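import Pool.Agent.LibF4858a.Count

set_option autoImplicit false

open MvPolynomial Filter Topology
open scoped LinearAlgebra.Projectivization

namespace Pool.Agent.LibF4858a

variable {n : ℕ}

/-- the real sequence -/
lemma tendsto_linSub_seq (k A B : ℕ) (hk : 1 ≤ k) :
    Tendsto (fun m : ℕ => ((k.factorial * ((m * A + 1) * (k + m * B - 1).choose (m * B)) : ℕ) : ℝ) /
      ((m ^ k : ℕ) : ℝ)) atTop (𝓝 (k * A * B ^ (k - 1))) := by
  obtain ⟨k, rfl⟩ : ∃ k', k = k' + 1 := ⟨k - 1, by omega⟩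
  have h1 : ∀ m : ℕ, (k + 1).factorial * ((m * A + 1) * (k + 1 + m * B - 1).choose (m * B)) =
      (k + 1) * (m * A + 1) * ∏ i ∈ Finset.range k, (m * B + 1 + i) := by
    intro m
    have h2 : k + 1 + m * B - 1 = m * B + k := by omega
    have h3 : (m * B + k).choose (m * B) = (m * B + k).choose k := by
      rw [← Nat.choose_symm_of_eq_add rfl]
    rw [h2, h3, Nat.factorial_succ, ← Nat.ascFactorial_eq_prod_range,
      Nat.ascFactorial_eq_factorial_mul_choose]
    ring
  simp only [h1]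
  have h4 : ∀ c : ℕ, ∀ C : ℕ, Tendsto (fun m : ℕ => ((m * C + c : ℕ) : ℝ) / (m : ℝ)) atTop
      (𝓝 (C : ℝ)) := by
    intro c C
    have h5 : Tendsto (fun m : ℕ => (C : ℝ) + (c : ℝ) / (m : ℝ)) atTop (𝓝 ((C : ℝ) + 0)) :=
      tendsto_const_nhds.add (tendsto_const_div_atTop_nhds_zero_nat _)
    rw [add_zero] at h5
    refine h5.congr' ?_
    filter_upwards [eventually_gt_atTop 0] with m hm
    have hm' : (m : ℝ) ≠ 0 := by positivity
    push_cast
    field_simp
  have h6 : Tendsto (fun m : ℕ => ((k + 1 : ℕ) : ℝ) * (((m * A + 1 : ℕ) : ℝ) / (m : ℝ)) *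
      ∏ i ∈ Finset.range k, (((m * B + (1 + i) : ℕ) : ℝ) / (m : ℝ))) atTop
      (𝓝 (((k + 1 : ℕ) : ℝ) * (A : ℝ) * ∏ i ∈ Finset.range k, (B : ℝ))) :=
    ((tendsto_const_nhds).mul (h4 1 A)).mul (tendsto_finsetProd _ fun i _ => h4 (1 + i) B)
  rw [Finset.prod_const, Finset.card_range] at h6
  have h7 : k + 1 - 1 = k := by omega
  rw [h7]
  refine h6.congr' ?_
  filter_upwards [eventually_gt_atTop 0] with m hm
  have hm' : (m : ℝ) ≠ 0 := by positivity
  rw [Finset.prod_div_distrib, Finset.prod_const, Finset.card_range]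
  have h8 : ((∏ i ∈ Finset.range k, (m * B + 1 + i) : ℕ) : ℝ) =
      ∏ i ∈ Finset.range k, ((m * B + (1 + i) : ℕ) : ℝ) := by
    push_cast
    exact Finset.prod_congr rfl fun i _ => by ring
  rw [Nat.cast_mul, Nat.cast_mul, h8]
  generalize ∏ i ∈ Finset.range k, ((m * B + (1 + i) : ℕ) : ℝ) = P
  push_cast
  field_simp
  ring

lemma natCast_div_eq_ofReal (a b : ℕ) (hb : 0 < b) :
    ((a : ENNReal) / (b : ENNReal)) = ENNReal.ofReal ((a : ℝ) / (b : ℝ)) := by
  rw [ENNReal.ofReal_div_of_pos (by exact_mod_cast hb), ENNReal.ofReal_natCast,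
    ENNReal.ofReal_natCast]

lemma degree_svMap_linSub {k : ℕ} (hk1 : 1 ≤ k) (hk : k ≤ n) (A B : ℕ) :
    degree k (svMap n A B '' linSub n k) = k * A * B ^ (k - 1) := by
  unfold degree
  simp only [hilbertFn_svMap_image, biHilb_linSub hk1 hk]
  have h1 := tendsto_linSub_seq k A B hk1
  have h2 : Tendsto (fun m : ℕ =>
      ((k.factorial * ((m * A + 1) * (k + m * B - 1).choose (m * B)) : ℕ) : ENNReal) /
      ((m ^ k : ℕ) : ENNReal)) atTop (𝓝 (ENNReal.ofReal (k * A * B ^ (k - 1)))) := by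
    refine (ENNReal.tendsto_ofReal h1).congr' ?_
    filter_upwards [eventually_gt_atTop 0] with m hm
    exact (natCast_div_eq_ofReal _ _ (by positivity)).symm
  rw [h2.limsup_eq, ENNReal.toReal_ofReal (by positivity)]

lemma exists_b (k e : ℕ) : ∃ b : ℕ, 1 ≤ b ∧
    (k : ℝ) * (1 : ℕ) * ((b + e : ℕ) : ℝ) ^ (k - 1) < k * (2 : ℕ) * (b : ℝ) ^ (k - 1) ∨ k = 0 := by
  rcases Nat.eq_zero_or_pos k with hk | hk
  · exact ⟨0, Or.inr hk⟩
  have h1 : Tendsto (fun b : ℕ => (1 + (e : ℝ) / (b : ℝ)) ^ (k - 1)) atTop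
      (𝓝 ((1 + 0) ^ (k - 1))) :=
    (tendsto_const_nhds.add (tendsto_const_div_atTop_nhds_zero_nat _)).pow _
  rw [add_zero, one_pow] at h1
  have h2 : ∀ᶠ b : ℕ in atTop, (1 + (e : ℝ) / (b : ℝ)) ^ (k - 1) < 2 :=
    h1.eventually_lt_const (by norm_num)
  obtain ⟨b, hb, hb1⟩ := (h2.and (eventually_ge_atTop 1)).exists
  refine ⟨b, Or.inl ⟨hb1, ?_⟩⟩
  have hb' : (0 : ℝ) < b := by exact_mod_cast hb1
  have h3 : ((b + e : ℕ) : ℝ) = (1 + (e : ℝ) / (b : ℝ)) * b := by
    push_cast
    field_simp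
  rw [h3, mul_pow]
  have h4 : (0 : ℝ) < (b : ℝ) ^ (k - 1) := by positivity
  have h5 : (0 : ℝ) < k := by exact_mod_cast hk
  push_cast
  nlinarith [mul_pos h5 h4]

/-- monotonicity of the bigraded Hilbert function -/
lemma biHilb_mono {V : Set (PP n)} {k : ℕ} (hV : IsSubvariety V k) (a b A B : ℕ) :
    biHilb V A B ≤ biHilb V (a + A) (b + B) := by
  obtain ⟨p, hp⟩ := hV.nonempty
  obtain ⟨i0, hi0⟩ := exists_rep_ne_zero p.1
  obtain ⟨j0, hj0⟩ := exists_rep_ne_zero p.2
  set H : CoxRing n := X (Sum.inl i0) ^ a * X (Sum.inr j0) ^ b with hH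
  have hHmem : H ∈ biforms n a b := by
    have := mul_mem_biforms (pow_mem_biforms (X_inl_mem (n := n) i0) a)
      (pow_mem_biforms (X_inr_mem (n := n) j0) b)
    simpa using this
  have hHp : valAt p H ≠ 0 := by
    rw [hH, valAt_mul, valAt_pow, valAt_pow, valAt_X_inl, valAt_X_inr]
    exact mul_ne_zero (pow_ne_zero _ hi0) (pow_ne_zero _ hj0)
  let τ : biforms n A B →ₗ[ℂ] biforms n (a + A) (b + B) :=
    { toFun := fun e => ⟨H * e.1, mul_mem_biforms hHmem e.2⟩
      map_add' := by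
        intro e e'
        apply Subtype.ext
        simp only [Submodule.coe_add]
        ring
      map_smul' := by
        intro c e
        apply Subtype.ext
        simp only [Submodule.coe_smul, RingHom.id_apply, mul_smul_comm] }
  have hker : bivanish V A B = LinearMap.ker ((bivanish V (a + A) (b + B)).mkQ ∘ₗ τ) := by
    ext e
    rw [LinearMap.mem_ker, LinearMap.comp_apply, Submodule.mkQ_apply,
      Submodule.Quotient.mk_eq_zero, mem_bivanish, mem_bivanish]
    have hval : ∀ q, valAt q (τ e).1 = valAt q H * valAt q e.1 := fun q => valAt_mul q H e.1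
    constructor
    · intro h q hq
      rw [hval, h q hq, mul_zero]
    · intro h
      rcases hV.prime hHmem e.2 (fun q hq => by rw [← hval]; exact h q hq) with h3 | h3
      · exact absurd (h3 p hp) hHp
      · exact h3
  unfold biHilb
  rw [(Submodule.quotEquivOfEq _ _ hker).finrank_eq,
    ((bivanish V (a + A) (b + B)).mkQ ∘ₗ τ).quotKerEquivRange.finrank_eq]
  exact Submodule.finrank_le _

/-- Degrees on `V ⊆ X_F`: `deg_{O(2,b)} V ≤ deg_{O(1,b+e₂)} V`. -/
lemma degree_le {V : Set (PP n)} {k : ℕ} (hV : IsSubvariety V k) {e₁ e₂ : ℕ}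
    {F : CoxRing n} (hF : F ∈ biforms n e₁ e₂) (hVF : ∀ p ∈ V, valAt p F = 0)
    (hgood : ∀ z : Fin n → ℂ, z ≠ 0 → ∃ x : Fin 2 → ℂ, eval (Sum.elim x z) F ≠ 0)
    {b : ℕ} (hb : 1 ≤ b) :
    degree k (svMap n 2 b '' V) ≤ degree k (svMap n 1 (b + e₂) '' V) := by
  unfold degree
  simp only [hilbertFn_svMap_image]
  set u : ℕ → ENNReal := fun m => ((k.factorial * biHilb V (m * 2) (m * b) : ℕ) : ENNReal) /
    ((m ^ k : ℕ) : ENNReal) with hu
  set v : ℕ → ENNReal := fun m => ((k.factorial * biHilb V (m * 1) (m * (b + e₂)) : ℕ) : ENNReal) /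
    ((m ^ k : ℕ) : ENNReal) with hv
  have huv : limsup u atTop ≤ limsup v atTop := by
    refine limsup_le_limsup ?_ (by isBoundedDefault) (by isBoundedDefault)
    filter_upwards [eventually_ge_atTop e₁] with m hm
    have h1 := biHilb_iterate_le hV hF hVF hgood m m (m * b) (by omega)
    have h2 : m + m = m * 2 := by ring
    have h3 : m * b + m * e₂ = m * (b + e₂) := by ring
    rw [h2, h3] at h1
    simp only [hu, hv, mul_one]
    gcongr
  by_cases hfin : limsup v atTop = ⊤
  · -- then also `limsup u = ⊤`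
    have hM : limsup u atTop = ⊤ := by
      by_contra hne
      have hlt : limsup u atTop < ⊤ := lt_top_iff_ne_top.mpr hne
      obtain ⟨C, hC1, hC2⟩ := exists_between hlt
      have hev := eventually_lt_of_limsup_lt hC1
      have hM1 : 1 ≤ b + e₂ := by omega
      have h4 : ∀ᶠ m : ℕ in atTop, v m ≤ ((b + e₂ : ℕ) : ENNReal) ^ k * C := by
        have h5 : Tendsto (fun m : ℕ => m * (b + e₂)) atTop atTop :=
          tendsto_id.atTop_mul_const' (by omega)
        filter_upwards [h5.eventually hev, eventually_gt_atTop 0] with m hm hm0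
        have h6 : biHilb V (m * 1) (m * (b + e₂)) ≤
            biHilb V (m * (b + e₂) * 2) (m * (b + e₂) * b) := by
          have h7 := biHilb_mono hV (m * (b + e₂) * 2 - m * 1) (m * (b + e₂) * b - m * (b + e₂))
            (m * 1) (m * (b + e₂))
          have h8 : m * (b + e₂) * 2 - m * 1 + m * 1 = m * (b + e₂) * 2 := by
            apply Nat.sub_add_cancel
            nlinarith
          have h9 : m * (b + e₂) * b - m * (b + e₂) + m * (b + e₂) = m * (b + e₂) * b := by
            apply Nat.sub_add_cancel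
            nlinarith [Nat.zero_le (m * (b + e₂))]
          rwa [h8, h9] at h7
        have h10 : v m ≤ ((b + e₂ : ℕ) : ENNReal) ^ k * u (m * (b + e₂)) := by
          simp only [hu, hv]
          rw [Nat.mul_pow, Nat.cast_mul (m ^ k) ((b + e₂) ^ k), Nat.cast_pow (b + e₂) k]
          set c : ENNReal := ((b + e₂ : ℕ) : ENNReal) ^ k with hc
          have hc0 : c ≠ 0 := by
            rw [hc]
            exact pow_ne_zero _ (by exact_mod_cast (by omega : b + e₂ ≠ 0))
          have hct : c ≠ ⊤ := by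
            rw [hc]
            exact ENNReal.pow_ne_top (ENNReal.natCast_ne_top _)
          have hmk0 : ((m ^ k : ℕ) : ENNReal) ≠ 0 := by
            exact_mod_cast (pow_pos hm0 k).ne'
          rw [← mul_div_assoc, mul_comm ((m ^ k : ℕ) : ENNReal) c,
            ENNReal.mul_div_mul_left _ _ hc0 hct]
          gcongr
        refine h10.trans ?_
        gcongr
      have h11 : limsup v atTop ≤ ((b + e₂ : ℕ) : ENNReal) ^ k * C := limsup_le_of_le (h := h4)
      rw [hfin, top_le_iff] at h11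
      exact (ENNReal.mul_ne_top (ENNReal.pow_ne_top (ENNReal.natCast_ne_top _)) hC2.ne) h11
    rw [hM, hfin]
  · exact ENNReal.toReal_mono hfin huv

end Pool.Agent.LibF4858a
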