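import Pool.Agent.LibF4858a.Defs

set_option autoImplicit false

open MvPolynomial Filter
open scoped LinearAlgebra.Projectivization

namespace Pool.Agent.LibF4858a

variable {n : ℕ}

/-- the weights -/
def wt (n : ℕ) : Fin 2 ⊕ Fin n → ℕ × ℕ :=
  Sum.elim (fun _ : Fin 2 => ((1, 0) : ℕ × ℕ)) (fun _ : Fin n => ((0, 1) : ℕ × ℕ))

lemma weight_eq (d : (Fin 2 ⊕ Fin n) →₀ ℕ) :
    Finsupp.weight (wt n) d = (∑ i, d (Sum.inl i), ∑ j, d (Sum.inr j)) := by
  rw [Finsupp.weight_apply, Finsupp.sum_fintype _ _ (by intro i; simp)]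
  rw [Fintype.sum_sum_type]
  ext <;> simp [wt, Prod.fst_sum, Prod.snd_sum]

lemma mem_biforms_iff {a b : ℕ} {f : CoxRing n} : f ∈ biforms n a b ↔
    ∀ d, coeff d f ≠ 0 → (∑ i, d (Sum.inl i) = a ∧ ∑ j, d (Sum.inr j) = b) := by
  unfold biforms
  rw [mem_weightedHomogeneousSubmodule]
  constructor
  · intro h d hd
    have := h hd
    change Finsupp.weight (wt n) d = (a, b) at this
    rw [weight_eq] at this
    exact Prod.mk.inj this
  · intro h d hd
    change Finsupp.weight (wt n) d = (a, b)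
    rw [weight_eq, (h d hd).1, (h d hd).2]

lemma monomial_mem_biforms {a b : ℕ} (d : (Fin 2 ⊕ Fin n) →₀ ℕ) (c : ℂ)
    (h1 : ∑ i, d (Sum.inl i) = a) (h2 : ∑ j, d (Sum.inr j) = b) :
    monomial d c ∈ biforms n a b := by
  classical
  rw [mem_biforms_iff]
  intro d' hd'
  rw [coeff_monomial] at hd'
  split_ifs at hd' with h
  · subst h; exact ⟨h1, h2⟩
  · exact absurd rfl hd'

lemma mul_mem_biforms {a b a' b' : ℕ} {f g : CoxRing n} (hf : f ∈ biforms n a b)
    (hg : g ∈ biforms n a' b') : f * g ∈ biforms n (a + a') (b + b') :=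
  IsWeightedHomogeneous.mul hf hg

lemma X_inl_mem (i : Fin 2) : (X (Sum.inl i) : CoxRing n) ∈ biforms n 1 0 := by
  have := isWeightedHomogeneous_X ℂ (wt n) (Sum.inl i)
  exact this

lemma X_inr_mem (j : Fin n) : (X (Sum.inr j) : CoxRing n) ∈ biforms n 0 1 := by
  have := isWeightedHomogeneous_X ℂ (wt n) (Sum.inr j)
  exact this

lemma one_mem_biforms : (1 : CoxRing n) ∈ biforms n 0 0 :=
  isWeightedHomogeneous_one ℂ (wt n)

lemma pow_mem_biforms {a b : ℕ} {f : CoxRing n} (hf : f ∈ biforms n a b) (k : ℕ) :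
    f ^ k ∈ biforms n (k * a) (k * b) := by
  have := IsWeightedHomogeneous.pow hf k
  simpa [biforms] using this

lemma prod_mem_biforms {ι : Type*} (s : Finset ι) {a b : ι → ℕ} {f : ι → CoxRing n}
    (hf : ∀ i ∈ s, f i ∈ biforms n (a i) (b i)) :
    ∏ i ∈ s, f i ∈ biforms n (∑ i ∈ s, a i) (∑ i ∈ s, b i) := by
  classical
  induction s using Finset.induction_on with
  | empty => simpa using one_mem_biforms
  | insert i s hi ih =>
    rw [Finset.prod_insert hi, Finset.sum_insert hi, Finset.sum_insert hi]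
    exact mul_mem_biforms (hf i (Finset.mem_insert_self i s))
      (ih fun j hj => hf j (Finset.mem_insert_of_mem hj))

/-- scaling -/
lemma eval_smul_biform {a b : ℕ} {f : CoxRing n} (hf : f ∈ biforms n a b) (s t : ℂ)
    (x : Fin 2 → ℂ) (z : Fin n → ℂ) :
    eval (Sum.elim (s • x) (t • z)) f = s ^ a * t ^ b * eval (Sum.elim x z) f := by
  rw [mem_biforms_iff] at hf
  rw [eval_eq', eval_eq', Finset.mul_sum]
  refine Finset.sum_congr rfl fun d hd => ?_
  obtain ⟨h1, h2⟩ := hf d (mem_support_iff.mp hd)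
  rw [Fintype.prod_sum_type, Fintype.prod_sum_type]
  simp only [Sum.elim_inl, Sum.elim_inr, Pi.smul_apply, smul_eq_mul, mul_pow,
    Finset.prod_mul_distrib, Finset.prod_pow_eq_pow_sum, h1, h2]
  ring

/-- For `p = ([x], [z])` the value at the chosen coordinates is a nonzero multiple of the value
at `(x, z)`. -/
lemma exists_valAt_mk {x : Fin 2 → ℂ} {z : Fin n → ℂ}
    (hx : x ≠ 0) (hz : z ≠ 0) : ∃ c e : ℂ, c ≠ 0 ∧ e ≠ 0 ∧ ∀ a b : ℕ, ∀ f ∈ biforms n a b,
      valAt (Projectivization.mk ℂ x hx, Projectivization.mk ℂ z hz) f =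
        c ^ a * e ^ b * eval (Sum.elim x z) f := by
  obtain ⟨c, hc⟩ := Projectivization.exists_smul_eq_mk_rep ℂ x hx
  obtain ⟨e, he⟩ := Projectivization.exists_smul_eq_mk_rep ℂ z hz
  refine ⟨c, e, c.ne_zero, e.ne_zero, fun a b f hf => ?_⟩
  unfold valAt
  rw [← hc, ← he]
  exact eval_smul_biform hf _ _ _ _

lemma valAt_mk_eq_zero_iff {a b : ℕ} {f : CoxRing n} (hf : f ∈ biforms n a b) {x : Fin 2 → ℂ}
    {z : Fin n → ℂ} (hx : x ≠ 0) (hz : z ≠ 0) :
    valAt (Projectivization.mk ℂ x hx, Projectivization.mk ℂ z hz) f = 0 ↔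
      eval (Sum.elim x z) f = 0 := by
  obtain ⟨c, e, hc, he, h⟩ := exists_valAt_mk hx hz
  rw [h a b f hf]
  simp [hc, he]

lemma biforms_le {a b : ℕ} (S : Submodule ℂ (CoxRing n))
    (h : ∀ d : (Fin 2 ⊕ Fin n) →₀ ℕ, ∑ i, d (Sum.inl i) = a → ∑ j, d (Sum.inr j) = b →
      monomial d (1 : ℂ) ∈ S) : biforms n a b ≤ S := by
  intro f hf
  rw [mem_biforms_iff] at hf
  rw [← support_sum_monomial_coeff f]
  refine Submodule.sum_mem _ fun d hd => ?_
  obtain ⟨h1, h2⟩ := hf d (mem_support_iff.mp hd)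
  have : monomial d (coeff d f) = coeff d f • monomial d (1 : ℂ) := by
    rw [smul_monomial, smul_eq_mul, mul_one]
  rw [this]
  exact S.smul_mem _ (h d h1 h2)

lemma exists_fun_prod {ι R : Type*} [Fintype ι] [DecidableEq ι] [CommMonoid R] :
    ∀ (A : ℕ) (α : ι → ℕ), ∑ i, α i = A →
      ∃ f : Fin A → ι, ∀ v : ι → R, ∏ s, v (f s) = ∏ i, v i ^ α i := by
  intro A
  induction A with
  | zero =>
    intro α hα
    refine ⟨Fin.elim0, fun v => ?_⟩
    have h0 : ∀ i, α i = 0 := by
      intro i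
      exact (Finset.sum_eq_zero_iff.mp hα) i (Finset.mem_univ i)
    simp [h0]
  | succ A ih =>
    intro α hα
    have hne : ∃ i0, α i0 ≠ 0 := by
      by_contra hcon
      push Not at hcon
      simp [hcon] at hα
    obtain ⟨i0, hi0⟩ := hne
    have hsum : ∑ i, (Function.update α i0 (α i0 - 1)) i = A := by
      have h1 := Finset.sum_erase_add Finset.univ α (Finset.mem_univ i0)
      have h2 := Finset.sum_erase_add Finset.univ (Function.update α i0 (α i0 - 1))
        (Finset.mem_univ i0)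
      have h3 : ∑ i ∈ Finset.univ.erase i0, (Function.update α i0 (α i0 - 1)) i =
          ∑ i ∈ Finset.univ.erase i0, α i := by
        refine Finset.sum_congr rfl fun i hi => ?_
        rw [Function.update_of_ne (Finset.ne_of_mem_erase hi)]
      rw [← h2, h3, Function.update_self]
      omega
    obtain ⟨f, hf⟩ := ih _ hsum
    refine ⟨Fin.cons i0 f, fun v => ?_⟩
    rw [Fin.prod_univ_succ]
    simp only [Fin.cons_zero, Fin.cons_succ]
    rw [hf v]
    rw [← Finset.mul_prod_erase Finset.univ (fun i => v i ^ α i) (Finset.mem_univ i0),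
      ← Finset.mul_prod_erase Finset.univ
        (fun i => v i ^ (Function.update α i0 (α i0 - 1)) i) (Finset.mem_univ i0)]
    have h3 : ∏ i ∈ Finset.univ.erase i0, v i ^ (Function.update α i0 (α i0 - 1)) i =
        ∏ i ∈ Finset.univ.erase i0, v i ^ α i := by
      refine Finset.prod_congr rfl fun i hi => ?_
      rw [Function.update_of_ne (Finset.ne_of_mem_erase hi)]
    rw [h3, ← mul_assoc, Function.update_self, ← pow_succ']
    congr 2
    omega

/-- products of variables -/
noncomputable def prodMon (n A B : ℕ) (ij : (Fin A → Fin 2) × (Fin B → Fin n)) : CoxRing n :=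
  (∏ s, X (Sum.inl (ij.1 s))) * ∏ t, X (Sum.inr (ij.2 t))

lemma prodMon_mem (A B : ℕ) (ij : (Fin A → Fin 2) × (Fin B → Fin n)) :
    prodMon n A B ij ∈ biforms n A B := by
  have h1 : (∏ s, (X (Sum.inl (ij.1 s)) : CoxRing n)) ∈ biforms n A 0 := by
    have := prod_mem_biforms (n := n) Finset.univ (a := fun _ : Fin A => 1) (b := fun _ => 0)
      (f := fun s => X (Sum.inl (ij.1 s))) (fun s _ => X_inl_mem _)
    simpa using this
  have h2 : (∏ t, (X (Sum.inr (ij.2 t)) : CoxRing n)) ∈ biforms n 0 B := by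
    have := prod_mem_biforms (n := n) Finset.univ (a := fun _ : Fin B => 0) (b := fun _ => 1)
      (f := fun s => X (Sum.inr (ij.2 s))) (fun s _ => X_inr_mem _)
    simpa using this
  have := mul_mem_biforms h1 h2
  simpa [prodMon] using this

lemma biforms_eq_span (A B : ℕ) :
    biforms n A B = Submodule.span ℂ (Set.range (prodMon n A B)) := by
  apply le_antisymm
  · apply biforms_le
    intro d h1 h2
    obtain ⟨f, hf⟩ := exists_fun_prod (R := CoxRing n) A (fun i => d (Sum.inl i)) h1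
    obtain ⟨g, hg⟩ := exists_fun_prod (R := CoxRing n) B (fun i => d (Sum.inr i)) h2
    have : monomial d (1 : ℂ) = prodMon n A B (f, g) := by
      unfold prodMon
      simp only
      rw [hf (fun i => X (Sum.inl i)), hg (fun i => X (Sum.inr i)), monomial_eq, C_1, one_mul,
        Finsupp.prod_fintype _ _ (by intro i; simp), Fintype.prod_sum_type]
    rw [this]
    exact Submodule.subset_span ⟨_, rfl⟩
  · rw [Submodule.span_le]
    rintro _ ⟨ij, rfl⟩
    exact prodMon_mem A B ij

/-- Every form of bidegree `(A+1, B)` is `x₀ g₀ + x₁^{A+1} g'` with `g'` a form in the `z_j`. -/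
lemma exists_decomp {A B : ℕ} {g : CoxRing n} (hg : g ∈ biforms n (A + 1) B) :
    ∃ g₀ ∈ biforms n A B, ∃ g' ∈ biforms n 0 B,
      g = X (Sum.inl 0) * g₀ + X (Sum.inl 1) ^ (A + 1) * g' := by
  have key : biforms n (A + 1) B ≤
      (biforms n A B).map (LinearMap.mulLeft ℂ (X (Sum.inl 0))) ⊔
      (biforms n 0 B).map (LinearMap.mulLeft ℂ (X (Sum.inl 1) ^ (A + 1))) := by
    rw [biforms_eq_span, Submodule.span_le]
    rintro _ ⟨⟨i, j⟩, rfl⟩
    by_cases h : ∃ s, i s = 0
    · obtain ⟨s, hs⟩ := h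
      apply Submodule.mem_sup_left
      refine ⟨(∏ s ∈ Finset.univ.erase s, X (Sum.inl (i s))) * ∏ t, X (Sum.inr (j t)), ?_, ?_⟩
      · have h1 : (∏ s ∈ Finset.univ.erase s, (X (Sum.inl (i s)) : CoxRing n)) ∈
            biforms n A 0 := by
          have := prod_mem_biforms (n := n) (Finset.univ.erase s) (a := fun _ : Fin (A + 1) => 1)
            (b := fun _ => 0) (f := fun s => X (Sum.inl (i s))) (fun s _ => X_inl_mem _)
          simpa using this
        have h2 : (∏ t, (X (Sum.inr (j t)) : CoxRing n)) ∈ biforms n 0 B := by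
          have := prod_mem_biforms (n := n) Finset.univ (a := fun _ : Fin B => 0)
            (b := fun _ => 1) (f := fun s => X (Sum.inr (j s))) (fun s _ => X_inr_mem _)
          simpa using this
        have := mul_mem_biforms h1 h2
        simpa using this
      · simp only [LinearMap.mulLeft_apply, prodMon]
        rw [← Finset.mul_prod_erase Finset.univ (fun s => (X (Sum.inl (i s)) : CoxRing n))
          (Finset.mem_univ s), hs, mul_assoc]
    · push Not at h
      have hi : ∀ s, i s = 1 := by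
        intro s
        have := h s
        omega
      apply Submodule.mem_sup_right
      refine ⟨∏ t, X (Sum.inr (j t)), ?_, ?_⟩
      · have := prod_mem_biforms (n := n) Finset.univ (a := fun _ : Fin B => 0)
            (b := fun _ => 1) (f := fun s => X (Sum.inr (j s))) (fun s _ => X_inr_mem _)
        simpa using this
      · simp [prodMon, hi]
  obtain ⟨u, ⟨g₀, hg₀, rfl⟩, v, ⟨g', hg', rfl⟩, huv⟩ := Submodule.mem_sup.mp (key hg)
  exact ⟨g₀, hg₀, g', hg', by rw [← huv]; rfl⟩

end Pool.Agent.LibF4858a
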