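import Pool.Agent.LibF4858a.Linear

set_option autoImplicit false

open MvPolynomial Filter
open scoped LinearAlgebra.Projectivization

namespace Pool.Agent.LibF4858a

variable {n : ℕ}

lemma resHom_X_inl (k : ℕ) (i : Fin 2) : resHom n k (X (Sum.inl i)) = X (Sum.inl i) := by
  simp [resHom]

lemma resHom_mem_biforms (k : ℕ) {A B : ℕ} {f : CoxRing n} (hf : f ∈ biforms n A B) :
    resHom n k f ∈ biforms k A B := by
  have key : biforms n A B ≤ (biforms k A B).comap (resHom n k).toLinearMap := by
    rw [biforms_eq_span, Submodule.span_le]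
    rintro _ ⟨⟨i, j⟩, rfl⟩
    change resHom n k (prodMon n A B (i, j)) ∈ biforms k A B
    unfold prodMon
    rw [map_mul, map_prod, map_prod]
    have h1 : (∏ s, resHom n k (X (Sum.inl (i s)) : CoxRing n)) ∈ biforms k A 0 := by
      have := prod_mem_biforms (n := k) Finset.univ (a := fun _ : Fin A => 1) (b := fun _ => 0)
        (f := fun s => resHom n k (X (Sum.inl (i s))))
        (fun s _ => by rw [resHom_X_inl]; exact X_inl_mem _)
      simpa using this
    have h2 : (∏ t, resHom n k (X (Sum.inr (j t)) : CoxRing n)) ∈ biforms k 0 B := by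
      have := prod_mem_biforms (n := k) Finset.univ (a := fun _ : Fin B => 0) (b := fun _ => 1)
        (f := fun s => resHom n k (X (Sum.inr (j s)))) (fun s _ => by
          simp only [resHom, aeval_X, Sum.elim_inr]
          split_ifs with h
          · exact X_inr_mem _
          · exact Submodule.zero_mem _)
      simpa using this
    have := mul_mem_biforms h1 h2
    simpa using this
  exact key hf

/-- restriction of forms to `linSub` -/
noncomputable def resMap (n k A B : ℕ) : biforms n A B →ₗ[ℂ] biforms k A B :=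
  ((resHom n k).toLinearMap.domRestrict _).codRestrict _ (fun F => resHom_mem_biforms k F.2)

lemma resMap_coe (k A B : ℕ) (F : biforms n A B) : (resMap n k A B F).1 = resHom n k F.1 := rfl

lemma resMap_surjective {k : ℕ} (hk : k ≤ n) (A B : ℕ) :
    Function.Surjective (resMap n k A B) := by
  rw [← LinearMap.range_eq_top, eq_top_iff]
  rintro ⟨g, hg⟩ -
  have key : biforms k A B ≤
      (LinearMap.range (resMap n k A B)).map (biforms k A B).subtype := by
    conv_lhs => rw [biforms_eq_span]
    rw [Submodule.span_le]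
    rintro _ ⟨⟨i, j⟩, rfl⟩
    refine ⟨⟨prodMon k A B (i, j), prodMon_mem _ _ _⟩, ?_, rfl⟩
    refine ⟨⟨prodMon n A B (i, fun t => Fin.castLE hk (j t)), prodMon_mem _ _ _⟩, ?_⟩
    apply Subtype.ext
    rw [resMap_coe]
    change resHom n k (prodMon n A B (i, fun t => Fin.castLE hk (j t))) = prodMon k A B (i, j)
    unfold prodMon
    rw [map_mul, map_prod, map_prod]
    congr 1
    · refine Finset.prod_congr rfl fun s _ => ?_
      rw [resHom_X_inl]
    · refine Finset.prod_congr rfl fun s _ => ?_
      simp [resHom]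
  obtain ⟨y, hy1, hy2⟩ := key hg
  have : y = ⟨g, hg⟩ := Subtype.ext hy2
  rwa [this] at hy1

lemma biHilb_linSub_eq_finrank {k : ℕ} (hk1 : 1 ≤ k) (hk : k ≤ n) (A B : ℕ) :
    biHilb (linSub n k) A B = Module.finrank ℂ (biforms k A B) := by
  have hker : bivanish (linSub n k) A B = LinearMap.ker (resMap n k A B) := by
    ext F
    rw [mem_bivanish, LinearMap.mem_ker, vanish_linSub_iff hk1 hk F.2, ← resMap_coe]
    exact ⟨fun h => Subtype.ext h, fun h => congrArg Subtype.val h⟩
  unfold biHilb
  have e1 := LinearMap.quotKerEquivOfSurjective _ (resMap_surjective hk A B)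
  have e2 := Submodule.quotEquivOfEq _ _ hker
  exact (e2.trans e1).finrank_eq

lemma finrank_biforms {k : ℕ} (A B : ℕ) :
    Module.finrank ℂ (biforms k A B) = (A + 1) * (k + B - 1).choose B := by
  have h1 : biforms k A B =
      restrictSupport ℂ {d : (Fin 2 ⊕ Fin k) →₀ ℕ | Finsupp.weight (wt k) d = (A, B)} := by
    unfold biforms
    rw [weightedHomogeneousSubmodule_eq_finsupp_supported]
    rfl
  rw [h1, Module.finrank_eq_nat_card_basis (basisRestrictSupport ℂ _)]
  have e : {d : (Fin 2 ⊕ Fin k) →₀ ℕ // Finsupp.weight (wt k) d = (A, B)} ≃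
      {c : (Fin 2 →₀ ℕ) × (Fin k →₀ ℕ) // c.1 ∈ Finset.finsuppAntidiag Finset.univ A ∧
        c.2 ∈ Finset.finsuppAntidiag Finset.univ B} := by
    refine Equiv.subtypeEquiv Finsupp.sumFinsuppEquivProdFinsupp fun d => ?_
    rw [weight_eq, Prod.mk.injEq, Finset.mem_finsuppAntidiag, Finset.mem_finsuppAntidiag]
    simp
  have h2 : Nat.card {d : (Fin 2 ⊕ Fin k) →₀ ℕ // Finsupp.weight (wt k) d = (A, B)} =
      (A + 1) * (k + B - 1).choose B := by
    rw [Nat.card_congr (e.trans (Equiv.subtypeProdEquivProd)), Nat.card_prod]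
    congr 1
    · rw [Nat.card_eq_fintype_card, Fintype.card_coe, Finset.card_finsuppAntidiag_nat_eq_choose]
      simp only [Finset.card_univ, Fintype.card_fin]
      have : 2 + A - 1 = A + 1 := by omega
      rw [this, Nat.choose_succ_self_right]
    · rw [Nat.card_eq_fintype_card, Fintype.card_coe, Finset.card_finsuppAntidiag_nat_eq_choose]
      simp only [Finset.card_univ, Fintype.card_fin]
  exact h2

lemma biHilb_linSub {k : ℕ} (hk1 : 1 ≤ k) (hk : k ≤ n) (A B : ℕ) :
    biHilb (linSub n k) A B = (A + 1) * (k + B - 1).choose B := by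
  rw [biHilb_linSub_eq_finrank hk1 hk, finrank_biforms]

end Pool.Agent.LibF4858a
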