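import Mathlib

/-!
# Effective cones of cycles on subvarieties of `Y = ℙ¹ × ℙⁿ⁻¹` over `ℂ`

Classical language: closed points, Zariski closed sets, bihomogeneous polynomials,
projective embeddings, Hilbert functions.
-/

set_option autoImplicit false

open MvPolynomial Filter
open scoped LinearAlgebra.Projectivization

namespace Pool.Agent.LibF4858a

/-- The closed points of the projective space `ℙᴹ⁻¹` over `ℂ`. -/
abbrev PSpace (M : ℕ) : Type := ℙ ℂ (Fin M → ℂ)

/-- `v` is a vector of homogeneous coordinates of the point `w`.  (As `w.rep ≠ 0`, this forces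
`v ≠ 0` and `c ≠ 0`.) -/
def IsCoords {M : ℕ} (w : PSpace M) (v : Fin M → ℂ) : Prop := ∃ c : ℂ, w.rep = c • v

/-- The closed points of `Y = ℙ¹ × ℙⁿ⁻¹` over `ℂ`. -/
abbrev PP (n : ℕ) : Type := PSpace 2 × PSpace n

/-- The bigraded coordinate ring `ℂ[x₀, x₁, z₀, …, z_{n-1}]` of `Y`; `x_i = X (Sum.inl i)` and
`z_j = X (Sum.inr j)`. -/
abbrev CoxRing (n : ℕ) : Type := MvPolynomial (Fin 2 ⊕ Fin n) ℂ

/-- The space `H⁰(Y, O(a,b))` of bihomogeneous polynomials of bidegree `(a, b)`:
degree `a` in the `x_i` and degree `b` in the `z_j`. -/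
noncomputable def biforms (n a b : ℕ) : Submodule ℂ (CoxRing n) :=
  weightedHomogeneousSubmodule ℂ
    (Sum.elim (fun _ : Fin 2 => ((1, 0) : ℕ × ℕ)) (fun _ : Fin n => ((0, 1) : ℕ × ℕ))) (a, b)

/-- The value of `f` at (chosen homogeneous coordinates of) the point `p` of `Y`.  For
bihomogeneous `f`, whether this value is zero does not depend on the choice of coordinates. -/
noncomputable def valAt {n : ℕ} (p : PP n) (f : CoxRing n) : ℂ :=
  eval (Sum.elim p.1.rep p.2.rep) f

/-- Zariski closed subsets of `Y`: common zero loci of sets of bihomogeneous polynomials. -/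
def IsZariskiClosed {n : ℕ} (Z : Set (PP n)) : Prop :=
  ∃ T : Set (CoxRing n), (∀ f ∈ T, ∃ a b, f ∈ biforms n a b) ∧ Z = {p | ∀ f ∈ T, valAt p f = 0}

/-- The ideal of all polynomials vanishing on the (bi)cone over `V`, that is at every pair
`(x, z)` of vectors of homogeneous coordinates of a point of `V`. -/
noncomputable def coneIdeal {n : ℕ} (V : Set (PP n)) : Ideal (CoxRing n) :=
  ⨅ (x : Fin 2 → ℂ) (z : Fin n → ℂ) (_ : ∃ p ∈ V, IsCoords p.1 x ∧ IsCoords p.2 z),
    RingHom.ker (eval (Sum.elim x z))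

/-- `V` is a `k`-dimensional (closed, irreducible) subvariety of `Y`.  The dimension is the Krull
dimension of the bihomogeneous coordinate ring of `V` minus `2`. -/
structure IsSubvariety {n : ℕ} (V : Set (PP n)) (k : ℕ) : Prop where
  closed : IsZariskiClosed V
  nonempty : V.Nonempty
  irreducible : ∀ A B : Set (PP n), IsZariskiClosed A → IsZariskiClosed B →
    V ⊆ A ∪ B → V ⊆ A ∨ V ⊆ B
  dim : ringKrullDim (CoxRing n ⧸ coneIdeal V) = (k + 2 : ℕ)

/-- The map `φ` from the subset `Z` of `Y` to a projective space is given, locally on `Z`, by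
tuples of bihomogeneous polynomials of equal bidegree. -/
def IsRegularMap {n : ℕ} (Z : Set (PP n)) {M : ℕ} (φ : Z → PSpace M) : Prop :=
  ∀ p : Z, ∃ (a b : ℕ) (f : Fin M → CoxRing n), (∀ i, f i ∈ biforms n a b) ∧
    (∃ i, valAt p.1 (f i) ≠ 0) ∧
    ∀ q : Z, (∃ i, valAt q.1 (f i) ≠ 0) → IsCoords (φ q) (fun i => valAt q.1 (f i))

/-- The map `ψ` from `Z` to a projective space factors through `φ : Z → ℙᴹ⁻¹` followed by a map
which is given, locally on the image of `φ`, by tuples of homogeneous polynomials of equal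
degree. -/
def IsRegularOnImage {n : ℕ} (Z : Set (PP n)) {M N : ℕ} (φ : Z → PSpace M) (ψ : Z → PSpace N) :
    Prop :=
  ∀ p : Z, ∃ (e : ℕ) (g : Fin N → MvPolynomial (Fin M) ℂ), (∀ i, (g i).IsHomogeneous e) ∧
    (∃ i, eval (φ p).rep (g i) ≠ 0) ∧
    ∀ q : Z, (∃ i, eval (φ q).rep (g i) ≠ 0) → IsCoords (ψ q) (fun i => eval (φ q).rep (g i))

/-- A projective embedding of a subset `Z` of `Y` into some `ℙᴹ⁻¹`: a regular map with a regular
inverse defined on its image. -/
structure Embedding {n : ℕ} (Z : Set (PP n)) where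
  /-- number of homogeneous coordinates of the target -/
  M : ℕ
  /-- the map -/
  toFun : Z → PSpace M
  isRegularMap : IsRegularMap Z toFun
  inverse_fst : IsRegularOnImage Z toFun (fun p => p.1.1)
  inverse_snd : IsRegularOnImage Z toFun (fun p => p.1.2)

/-- Restriction of a regular map. -/
theorem IsRegularMap.restrict {n : ℕ} {X Z : Set (PP n)} (h : X ⊆ Z) {M : ℕ}
    {φ : Z → PSpace M} (hφ : IsRegularMap Z φ) :
    IsRegularMap X (fun p => φ (Set.inclusion h p)) := by
  intro p
  obtain ⟨a, b, f, h1, h2, h3⟩ := hφ (Set.inclusion h p)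
  exact ⟨a, b, f, h1, h2, fun q hq => h3 (Set.inclusion h q) hq⟩

/-- Restriction of a map regular on the image. -/
theorem IsRegularOnImage.restrict {n : ℕ} {X Z : Set (PP n)} (h : X ⊆ Z) {M N : ℕ}
    {φ : Z → PSpace M} {ψ : Z → PSpace N} (hφ : IsRegularOnImage Z φ ψ) :
    IsRegularOnImage X (fun p => φ (Set.inclusion h p)) (fun p => ψ (Set.inclusion h p)) := by
  intro p
  obtain ⟨e, g, h1, h2, h3⟩ := hφ (Set.inclusion h p)
  exact ⟨e, g, h1, h2, fun q hq => h3 (Set.inclusion h q) hq⟩

/-- Restriction of a projective embedding of `Z` to a smaller subset `X`. -/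
def Embedding.restrict {n : ℕ} {X Z : Set (PP n)} (h : X ⊆ Z) (φ : Embedding Z) :
    Embedding X :=
  ⟨φ.M, fun p => φ.toFun (Set.inclusion h p), φ.isRegularMap.restrict h,
    φ.inverse_fst.restrict h, φ.inverse_snd.restrict h⟩

/-- The forms of degree `m` on `ℙᴹ⁻¹` that vanish on `W`. -/
noncomputable def formsVanishingOn {M : ℕ} (W : Set (PSpace M)) (m : ℕ) :
    Submodule ℂ (homogeneousSubmodule (Fin M) ℂ m) :=
  ⨅ w ∈ W, LinearMap.ker ((aeval w.rep).toLinearMap ∘ₗ (homogeneousSubmodule (Fin M) ℂ m).subtype)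

/-- The Hilbert function `m ↦ dim (ℂ[w₁,…,w_M]_m / I(W)_m)` of `W ⊆ ℙᴹ⁻¹`. -/
noncomputable def hilbertFn {M : ℕ} (W : Set (PSpace M)) (m : ℕ) : ℕ :=
  Module.finrank ℂ (homogeneousSubmodule (Fin M) ℂ m ⧸ formsVanishingOn W m)

/-- The degree of a `k`-dimensional subvariety `W ⊆ ℙᴹ⁻¹`: `k!` times the leading coefficient of its
Hilbert polynomial, i.e. the limit of `k! * hilbertFn W m / m ^ k` (the limit exists by Hilbert's
theorem; it is written as a `limsup` so that the expression makes sense for every `W`). -/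
noncomputable def degree {M : ℕ} (k : ℕ) (W : Set (PSpace M)) : ℝ :=
  (limsup (fun m : ℕ => ((k.factorial * hilbertFn W m : ℕ) : ENNReal) / ((m ^ k : ℕ) : ENNReal))
    atTop).toReal

/-- The class of a `k`-dimensional subvariety `V ⊆ Z` in `N_k(Z)`: it is recorded by its degrees
`deg_φ(V) = (φ^*O(1))^k · V` with respect to all projective embeddings `φ` of `Z`. -/
noncomputable def cls {n : ℕ} (Z : Set (PP n)) (k : ℕ) (V : Set (PP n)) : Embedding Z → ℝ :=
  fun φ => degree k (φ.toFun '' {p : Z | p.1 ∈ V})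

/-- The set of classes in `N_k(Z)` of the `k`-dimensional subvarieties of `Z` that are contained
in `X`. -/
def classesIn {n : ℕ} (k : ℕ) (Z X : Set (PP n)) : Set (Embedding Z → ℝ) :=
  {c | ∃ V : Set (PP n), IsSubvariety V k ∧ V ⊆ X ∧ c = cls Z k V}

/-- `N_k(Z)`: real `k`-cycles on `Z` modulo those that have degree zero with respect to every
projective embedding of `Z`. -/
noncomputable def numGroup {n : ℕ} (k : ℕ) (Z : Set (PP n)) : Submodule ℝ (Embedding Z → ℝ) :=
  Submodule.span ℝ (classesIn k Z Z)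

/-- The closure of the convex cone spanned by a set of classes. -/
noncomputable def closedCone {n : ℕ} {Z : Set (PP n)} (S : Set (Embedding Z → ℝ)) :
    Set (Embedding Z → ℝ) :=
  closure (PointedCone.hull ℝ S : Set (Embedding Z → ℝ))

/-- `Eff_k(Z)`: the closure of the convex cone spanned by the classes of `k`-dimensional
subvarieties of `Z`. -/
noncomputable def effCone {n : ℕ} (k : ℕ) (Z : Set (PP n)) : Set (Embedding Z → ℝ) :=
  closedCone (classesIn k Z Z)

/-- The push-forward `i_*` along the inclusion `i : X ⊆ Z`.  It sends the class in `N_k(X)` of a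
subvariety `V ⊆ X` to its class in `N_k(Z)`. -/
def pushforward {n : ℕ} {X Z : Set (PP n)} (h : X ⊆ Z) :
    (Embedding X → ℝ) → (Embedding Z → ℝ) :=
  fun c φ => c (φ.restrict h)

/-- `i_*` induces an isomorphism of effective cones in dimension `k`. -/
def InducesIsoOfEffectiveCones {n : ℕ} (k : ℕ) {X Z : Set (PP n)} (h : X ⊆ Z) : Prop :=
  Set.BijOn (pushforward h) (numGroup k X) (numGroup k Z) ∧
    pushforward h '' effCone k X = effCone k Z

/-- The hypersurface of `Y` defined by the bihomogeneous polynomial `F`. -/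
def hypersurface {n : ℕ} (F : CoxRing n) : Set (PP n) := {p | valAt p F = 0}

/-- The linear subvariety `ℙ¹ × ℙᵏ⁻¹` of `Y` given by `z_k = … = z_{n-1} = 0`. -/
def linSub (n k : ℕ) : Set (PP n) := {p | ∀ j : Fin n, k ≤ (j : ℕ) → p.2.rep j = 0}

/-- `P` holds for a general member of the complete linear system `|O(a,b)|` on `Y`, i.e. for all
members `F = 0` outside a proper Zariski closed subset of the projective space of nonzero bidegree
`(a, b)` forms modulo scalars.  (Every proper closed subset of a projective space lies in a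
hypersurface `G = 0` with `G` homogeneous and not identically zero.) -/
def HoldsForGeneralMember (n a b : ℕ) (P : CoxRing n → Prop) : Prop :=
  ∃ (N : ℕ) (G : MvPolynomial ((Fin 2 ⊕ Fin n) →₀ ℕ) ℂ), G.IsHomogeneous N ∧
    (∃ F₀ ∈ biforms n a b, eval (fun s => coeff s F₀) G ≠ 0) ∧
    ∀ F ∈ biforms n a b, F ≠ 0 → eval (fun s => coeff s F) G ≠ 0 → P F

end Pool.Agent.LibF4858a
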