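import Pool.Agent.LibF4858a.Key

set_option autoImplicit false

open MvPolynomial Filter
open scoped LinearAlgebra.Projectivization

namespace Pool.Agent.LibF4858a

variable {n : ℕ}

/-- number of coordinates of the (redundant) Segre-Veronese map -/
noncomputable def svM (n A B : ℕ) : ℕ := Fintype.card ((Fin A → Fin 2) × (Fin B → Fin n))

/-- indexing of coordinates -/
noncomputable def svE (n A B : ℕ) : Fin (svM n A B) ≃ (Fin A → Fin 2) × (Fin B → Fin n) :=
  (Fintype.equivFin _).symm

/-- value vector of the Segre-Veronese map -/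
noncomputable def svVec (n A B : ℕ) (p : PP n) : Fin (svM n A B) → ℂ :=
  fun i => valAt p (prodMon n A B (svE n A B i))

lemma valAt_prodMon (A B : ℕ) (p : PP n) (ij : (Fin A → Fin 2) × (Fin B → Fin n)) :
    valAt p (prodMon n A B ij) = (∏ s, p.1.rep (ij.1 s)) * ∏ t, p.2.rep (ij.2 t) := by
  unfold valAt prodMon
  rw [map_mul, map_prod, map_prod]
  simp only [eval_X, Sum.elim_inl, Sum.elim_inr]

lemma exists_rep_ne_zero {K ι : Type*} [Field K] (w : ℙ K (ι → K)) : ∃ i, w.rep i ≠ 0 := by
  by_contra h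
  push Not at h
  exact w.rep_nonzero (funext h)

lemma svVec_ne_zero (n A B : ℕ) (p : PP n) : svVec n A B p ≠ 0 := by
  obtain ⟨i0, hi0⟩ := exists_rep_ne_zero p.1
  obtain ⟨j0, hj0⟩ := exists_rep_ne_zero p.2
  intro h
  have := congrFun h ((svE n A B).symm (fun _ => i0, fun _ => j0))
  unfold svVec at this
  rw [Equiv.apply_symm_apply, valAt_prodMon] at this
  simp [hi0, hj0] at this

/-- the Segre-Veronese map -/
noncomputable def svMap (n A B : ℕ) (p : PP n) : ℙ ℂ (Fin (svM n A B) → ℂ) :=
  Projectivization.mk ℂ (svVec n A B p) (svVec_ne_zero n A B p)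

lemma mk_eq_of_smul {ι : Type*} {w : ℙ ℂ (ι → ℂ)} {v : ι → ℂ} (hv : v ≠ 0) (c : ℂ)
    (h : v = c • w.rep) : w = Projectivization.mk ℂ v hv := by
  have hc : c ≠ 0 := by
    rintro rfl
    rw [zero_smul] at h
    exact hv h
  conv_lhs => rw [← w.mk_rep]
  rw [Projectivization.mk_eq_mk_iff']
  exact ⟨c⁻¹, by rw [h, smul_smul, inv_mul_cancel₀ hc, one_smul]⟩

lemma exists_rep_svMap (n A B : ℕ) (p : PP n) :
    ∃ c : ℂ, c ≠ 0 ∧ (svMap n A B p).rep = c • svVec n A B p := by
  obtain ⟨c, hc⟩ := Projectivization.exists_smul_eq_mk_rep ℂ _ (svVec_ne_zero n A B p)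
  exact ⟨c, c.ne_zero, hc.symm⟩

lemma prod_update_const {ι R : Type*} [DecidableEq ι] [CommMonoid R] {A : ℕ} (s0 : Fin A)
    (i0 l : ι) (v : ι → R) :
    ∏ s, v (Function.update (fun _ : Fin A => i0) s0 l s) = v l * v i0 ^ (A - 1) := by
  rw [← Finset.mul_prod_erase Finset.univ _ (Finset.mem_univ s0), Function.update_self]
  congr 1
  rw [Finset.prod_congr rfl (g := fun _ => v i0)]
  · rw [Finset.prod_const, Finset.card_erase_of_mem (Finset.mem_univ _), Finset.card_univ,
      Fintype.card_fin]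
  · intro s hs
    rw [Function.update_of_ne (Finset.ne_of_mem_erase hs)]

lemma isCoords_of_smul {M : ℕ} {w : PSpace M} {v : Fin M → ℂ} {c : ℂ} (hc : c ≠ 0)
    (h : v = c • w.rep) : IsCoords w v :=
  ⟨c⁻¹, by rw [h, smul_smul, inv_mul_cancel₀ hc, one_smul]⟩

lemma eval_fst (A B : ℕ) (hA : 1 ≤ A) (i0 : Fin 2) (j0 : Fin n) (q : PP n) :
    ∃ c : ℂ, c ≠ 0 ∧ (fun l => eval (svMap n A B q).rep
        (X ((svE n A B).symm (Function.update (fun _ => i0) (⟨0, hA⟩ : Fin A) l, fun _ => j0))
          : MvPolynomial (Fin (svM n A B)) ℂ)) =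
        (c * (q.1.rep i0 ^ (A - 1) * q.2.rep j0 ^ B)) • q.1.rep := by
  obtain ⟨c, hc, hrep⟩ := exists_rep_svMap n A B q
  refine ⟨c, hc, funext fun l => ?_⟩
  rw [hrep, eval_X, Pi.smul_apply, Pi.smul_apply, svVec, Equiv.apply_symm_apply,
    valAt_prodMon]
  simp only
  rw [prod_update_const, Finset.prod_const, Finset.card_univ, Fintype.card_fin]
  simp only [smul_eq_mul]
  ring

lemma eval_snd (A B : ℕ) (hB : 1 ≤ B) (i0 : Fin 2) (j0 : Fin n) (q : PP n) :
    ∃ c : ℂ, c ≠ 0 ∧ (fun l => eval (svMap n A B q).rep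
        (X ((svE n A B).symm (fun _ => i0, Function.update (fun _ => j0) (⟨0, hB⟩ : Fin B) l))
          : MvPolynomial (Fin (svM n A B)) ℂ)) =
        (c * (q.1.rep i0 ^ A * q.2.rep j0 ^ (B - 1))) • q.2.rep := by
  obtain ⟨c, hc, hrep⟩ := exists_rep_svMap n A B q
  refine ⟨c, hc, funext fun l => ?_⟩
  rw [hrep, eval_X, Pi.smul_apply, Pi.smul_apply, svVec, Equiv.apply_symm_apply,
    valAt_prodMon]
  simp only
  rw [prod_update_const, Finset.prod_const, Finset.card_univ, Fintype.card_fin]
  simp only [smul_eq_mul]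
  ring

/-- Values proportional to coordinates. -/
lemma isCoords_of_exists_ne {M : ℕ} {w : PSpace M} {v : Fin M → ℂ} {c : ℂ} (h : v = c • w.rep)
    (hne : ∃ i, v i ≠ 0) : IsCoords w v := by
  refine isCoords_of_smul (c := c) ?_ h
  rintro rfl
  obtain ⟨i, hi⟩ := hne
  rw [h] at hi
  simp at hi

/-- The Segre-Veronese embedding of `Y` by bihomogeneous forms of bidegree `(A, B)`. -/
noncomputable def sv (n A B : ℕ) (hA : 1 ≤ A) (hB : 1 ≤ B) : Embedding (Set.univ : Set (PP n)) where
  M := svM n A B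
  toFun := fun p => svMap n A B p.1
  isRegularMap := by
    intro p
    refine ⟨A, B, fun i => prodMon n A B (svE n A B i), fun i => prodMon_mem A B _, ?_, ?_⟩
    · by_contra h
      push Not at h
      exact svVec_ne_zero n A B p.1 (funext h)
    · intro q _
      obtain ⟨c, hc, hrep⟩ := exists_rep_svMap n A B q.1
      exact ⟨c, hrep⟩
  inverse_fst := by
    intro p
    obtain ⟨i0, hi0⟩ := exists_rep_ne_zero p.1.1
    obtain ⟨j0, hj0⟩ := exists_rep_ne_zero p.1.2
    refine ⟨1, fun l => X ((svE n A B).symm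
      (Function.update (fun _ => i0) (⟨0, hA⟩ : Fin A) l, fun _ => j0)),
      fun i => isHomogeneous_X _ _, ?_, ?_⟩
    · obtain ⟨c, hc, h⟩ := eval_fst A B hA i0 j0 p.1
      refine ⟨i0, ?_⟩
      have h1 := congrFun h i0
      rw [h1, Pi.smul_apply, smul_eq_mul]
      exact mul_ne_zero (mul_ne_zero hc (mul_ne_zero (pow_ne_zero _ hi0) (pow_ne_zero _ hj0))) hi0
    · intro q hq
      obtain ⟨c, hc, h⟩ := eval_fst A B hA i0 j0 q.1
      exact isCoords_of_exists_ne h hq
  inverse_snd := by
    intro p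
    obtain ⟨i0, hi0⟩ := exists_rep_ne_zero p.1.1
    obtain ⟨j0, hj0⟩ := exists_rep_ne_zero p.1.2
    refine ⟨1, fun l => X ((svE n A B).symm
      (fun _ => i0, Function.update (fun _ => j0) (⟨0, hB⟩ : Fin B) l)),
      fun i => isHomogeneous_X _ _, ?_, ?_⟩
    · obtain ⟨c, hc, h⟩ := eval_snd A B hB i0 j0 p.1
      refine ⟨j0, ?_⟩
      have h1 := congrFun h j0
      rw [h1, Pi.smul_apply, smul_eq_mul]
      exact mul_ne_zero (mul_ne_zero hc (mul_ne_zero (pow_ne_zero _ hi0) (pow_ne_zero _ hj0))) hj0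
    · intro q hq
      obtain ⟨c, hc, h⟩ := eval_snd A B hB i0 j0 q.1
      exact isCoords_of_exists_ne h hq

lemma mem_formsVanishingOn {M : ℕ} {W : Set (PSpace M)} {m : ℕ}
    {F : homogeneousSubmodule (Fin M) ℂ m} :
    F ∈ formsVanishingOn W m ↔ ∀ w ∈ W, eval w.rep F.1 = 0 := by
  unfold formsVanishingOn
  simp only [Submodule.mem_iInf, LinearMap.mem_ker]
  constructor
  · intro h w hw
    have := h w hw
    simpa [aeval_eq_eval] using this
  · intro h w hw
    have := h w hw
    simpa [aeval_eq_eval] using this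

lemma eval_smul_homogeneous {σ : Type*} [Fintype σ] {m : ℕ} {f : MvPolynomial σ ℂ}
    (hf : f.IsHomogeneous m) (c : ℂ) (v : σ → ℂ) : eval (c • v) f = c ^ m * eval v f := by
  rw [eval_eq', eval_eq', Finset.mul_sum]
  refine Finset.sum_congr rfl fun d hd => ?_
  have h1 : ∑ i, d i = m := by
    have := hf (mem_support_iff.mp hd)
    rw [← this, Finsupp.weight_apply, Finsupp.sum_fintype _ _ (by intro i; simp)]
    simp
  simp only [Pi.smul_apply, smul_eq_mul, mul_pow, Finset.prod_mul_distrib,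
    Finset.prod_pow_eq_pow_sum, h1]
  ring

lemma eval_svVec (A B : ℕ) (p : PP n) (F : MvPolynomial (Fin (svM n A B)) ℂ) :
    eval (svVec n A B p) F = valAt p (aeval (fun i => prodMon n A B (svE n A B i)) F) := by
  induction F using MvPolynomial.induction_on with
  | C a => simp [valAt]
  | add p q hp hq => rw [map_add, map_add, valAt_add, hp, hq]
  | mul_X p i hp => rw [map_mul, map_mul, valAt_mul, hp, eval_X, aeval_X]; rfl

lemma aeval_mem_biforms (A B : ℕ) {m : ℕ} {F : MvPolynomial (Fin (svM n A B)) ℂ}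
    (hF : F.IsHomogeneous m) :
    aeval (fun i => prodMon n A B (svE n A B i)) F ∈ biforms n (m * A) (m * B) := by
  rw [← support_sum_monomial_coeff F, map_sum]
  refine Submodule.sum_mem _ fun d hd => ?_
  have h1 : ∑ i, d i = m := by
    have := hF (mem_support_iff.mp hd)
    rw [← this, Finsupp.weight_apply, Finsupp.sum_fintype _ _ (by intro i; simp)]
    simp
  rw [aeval_monomial, Finsupp.prod_fintype _ _ (by intro i; simp), ← Algebra.smul_def]
  apply Submodule.smul_mem
  have := prod_mem_biforms (n := n) Finset.univ (a := fun i => d i * A) (b := fun i => d i * B)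
    (f := fun i => prodMon n A B (svE n A B i) ^ d i)
    (fun i _ => pow_mem_biforms (prodMon_mem A B _) _)
  rwa [← Finset.sum_mul, ← Finset.sum_mul, h1] at this

/-- substitution map -/
noncomputable def substMap (n A B m : ℕ) :
    homogeneousSubmodule (Fin (svM n A B)) ℂ m →ₗ[ℂ] biforms n (m * A) (m * B) :=
  ((aeval (fun i => prodMon n A B (svE n A B i))).toLinearMap.domRestrict _).codRestrict _
    (fun F => aeval_mem_biforms A B F.2)

lemma substMap_coe (A B m : ℕ) (F : homogeneousSubmodule (Fin (svM n A B)) ℂ m) :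
    (substMap n A B m F).1 = aeval (fun i => prodMon n A B (svE n A B i)) F.1 := rfl

lemma prodMon_group (A B m : ℕ) (i : Fin (m * A) → Fin 2) (j : Fin (m * B) → Fin n) :
    prodMon n (m * A) (m * B) (i, j) =
      ∏ r : Fin m, prodMon n A B (fun s => i (finProdFinEquiv (r, s)),
        fun t => j (finProdFinEquiv (r, t))) := by
  unfold prodMon
  simp only
  rw [Finset.prod_mul_distrib]
  congr 1
  · rw [← Equiv.prod_comp finProdFinEquiv, Fintype.prod_prod_type]
  · rw [← Equiv.prod_comp finProdFinEquiv, Fintype.prod_prod_type]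

lemma substMap_surjective (A B m : ℕ) : Function.Surjective (substMap n A B m) := by
  rw [← LinearMap.range_eq_top, eq_top_iff]
  rintro ⟨g, hg⟩ -
  have key : biforms n (m * A) (m * B) ≤
      (LinearMap.range (substMap n A B m)).map (biforms n (m * A) (m * B)).subtype := by
    conv_lhs => rw [biforms_eq_span]
    rw [Submodule.span_le]
    rintro _ ⟨⟨i, j⟩, rfl⟩
    refine ⟨⟨prodMon n (m * A) (m * B) (i, j), prodMon_mem _ _ _⟩, ?_, rfl⟩
    refine ⟨⟨∏ r : Fin m, X ((svE n A B).symm (fun s => i (finProdFinEquiv (r, s)),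
        fun t => j (finProdFinEquiv (r, t)))), ?_⟩, ?_⟩
    · have := IsHomogeneous.prod (Finset.univ : Finset (Fin m))
        (fun r => (X ((svE n A B).symm (fun s => i (finProdFinEquiv (r, s)),
        fun t => j (finProdFinEquiv (r, t)))) : MvPolynomial (Fin (svM n A B)) ℂ))
        (fun _ => 1) (fun r _ => isHomogeneous_X _ _)
      rw [mem_homogeneousSubmodule]
      simpa using this
    · apply Subtype.ext
      rw [substMap_coe]
      change _ = prodMon n (m * A) (m * B) (i, j)
      rw [prodMon_group, map_prod]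
      simp
  obtain ⟨y, hy1, hy2⟩ := key hg
  have : y = ⟨g, hg⟩ := Subtype.ext hy2
  rwa [this] at hy1

lemma hilbertFn_svMap_image (A B : ℕ) (V : Set (PP n)) (m : ℕ) :
    hilbertFn (svMap n A B '' V) m = biHilb V (m * A) (m * B) := by
  have hsurj : Function.Surjective
      ((bivanish V (m * A) (m * B)).mkQ ∘ₗ substMap n A B m) := by
    rw [LinearMap.coe_comp]
    exact (Submodule.mkQ_surjective _).comp (substMap_surjective A B m)
  have hker : formsVanishingOn (svMap n A B '' V) m =
      LinearMap.ker ((bivanish V (m * A) (m * B)).mkQ ∘ₗ substMap n A B m) := by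
    ext F
    rw [mem_formsVanishingOn, LinearMap.mem_ker, LinearMap.comp_apply, Submodule.mkQ_apply,
      Submodule.Quotient.mk_eq_zero, mem_bivanish]
    constructor
    · intro h p hp
      rw [substMap_coe, ← eval_svVec]
      have h1 := h _ ⟨p, hp, rfl⟩
      obtain ⟨c, hc, hrep⟩ := exists_rep_svMap n A B p
      rw [hrep, eval_smul_homogeneous F.2] at h1
      exact (mul_eq_zero.mp h1).resolve_left (pow_ne_zero _ hc)
    · intro h
      rintro _ ⟨p, hp, rfl⟩
      have h1 := h p hp
      rw [substMap_coe, ← eval_svVec] at h1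
      obtain ⟨c, hc, hrep⟩ := exists_rep_svMap n A B p
      rw [hrep, eval_smul_homogeneous F.2, h1, mul_zero]
  unfold hilbertFn biHilb
  have e1 := LinearMap.quotKerEquivOfSurjective _ hsurj
  have e2 := Submodule.quotEquivOfEq _ _ hker
  exact (e2.trans e1).finrank_eq

end Pool.Agent.LibF4858a
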