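import Pool.Agent.LibF4858a.Asymp

set_option autoImplicit false

open MvPolynomial Filter Topology
open scoped LinearAlgebra.Projectivization

namespace Pool.Agent.LibF4858a

variable {n : ℕ}

/-- exponent of `x₀^i x₁^{e₁-i}` -/
noncomputable def xpart (e₁ i : ℕ) : Fin 2 →₀ ℕ := Finsupp.single 0 i + Finsupp.single 1 (e₁ - i)

lemma xpart_zero (e₁ i : ℕ) : xpart e₁ i 0 = i := by simp [xpart]

lemma xpart_one (e₁ i : ℕ) : xpart e₁ i 1 = e₁ - i := by simp [xpart]

/-- the `z`-part of an exponent -/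
noncomputable def sndPart (s : (Fin 2 ⊕ Fin n) →₀ ℕ) : Fin n →₀ ℕ :=
  (Finsupp.sumFinsuppEquivProdFinsupp s).2

lemma sndPart_apply (s : (Fin 2 ⊕ Fin n) →₀ ℕ) (j : Fin n) : sndPart s j = s (Sum.inr j) := by
  simp [sndPart]

/-- the coefficient form `f_i(z)` of `x₀^i x₁^{e₁-i}` in `F` -/
noncomputable def slice (F : CoxRing n) (i : ℕ) : MvPolynomial (Fin n) ℂ :=
  ∑ s ∈ F.support.filter (fun s => s (Sum.inl 0) = i), monomial (sndPart s) (coeff s F)

lemma coeff_slice {e₁ e₂ : ℕ} {F : CoxRing n} (hF : F ∈ biforms n e₁ e₂) {i : ℕ}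
    (ζ : Fin n →₀ ℕ) :
    coeff ζ (slice F i) = coeff (Finsupp.sumElim (xpart e₁ i) ζ) F := by
  classical
  rw [mem_biforms_iff] at hF
  unfold slice
  rw [coeff_sum]
  simp only [coeff_monomial]
  have huniq : ∀ s, coeff s F ≠ 0 → s (Sum.inl 0) = i → sndPart s = ζ →
      s = Finsupp.sumElim (xpart e₁ i) ζ := by
    intro s hs h1 h2
    have h3 := (hF s hs).1
    rw [Fin.sum_univ_two, h1] at h3
    ext a
    rcases a with a | a
    · rw [Finsupp.sumElim_inl]
      fin_cases a
      · simpa [xpart_zero] using h1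
      · simp only [Fin.mk_one, Fin.isValue, xpart_one]
        omega
    · rw [Finsupp.sumElim_inr, ← h2, sndPart_apply]
  rw [Finset.sum_eq_single (Finsupp.sumElim (xpart e₁ i) ζ)]
  · have : sndPart (Finsupp.sumElim (xpart e₁ i) ζ) = ζ := by
      ext j
      rw [sndPart_apply, Finsupp.sumElim_inr]
    rw [if_pos this]
  · intro s hs hne
    rw [Finset.mem_filter, mem_support_iff] at hs
    split_ifs with h
    · exact absurd (huniq s hs.1 hs.2 h) hne
    · rfl
  · intro h
    rw [Finset.mem_filter, not_and_or] at h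
    rcases h with h | h
    · rw [notMem_support_iff] at h
      rw [h]
      simp
    · exact absurd (by rw [Finsupp.sumElim_inl, xpart_zero]) h

lemma slice_isHomogeneous {e₁ e₂ : ℕ} {F : CoxRing n} (hF : F ∈ biforms n e₁ e₂) (i : ℕ) :
    (slice F i).IsHomogeneous e₂ := by
  rw [mem_biforms_iff] at hF
  unfold slice
  apply IsHomogeneous.sum
  intro s hs
  rw [Finset.mem_filter, mem_support_iff] at hs
  apply isHomogeneous_monomial
  rw [Finsupp.degree_eq_sum]
  simp only [sndPart_apply]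
  exact (hF s hs.1).2

lemma eval_slice_eq_zero {e₁ e₂ : ℕ} {F : CoxRing n} (_hF : F ∈ biforms n e₁ e₂) (z : Fin n → ℂ)
    (h : ∀ x : Fin 2 → ℂ, eval (Sum.elim x z) F = 0) (i : ℕ) : eval z (slice F i) = 0 := by
  classical
  set p : Polynomial ℂ := ∑ s ∈ F.support,
    Polynomial.C (coeff s F * ∏ j, z j ^ s (Sum.inr j)) * Polynomial.X ^ s (Sum.inl 0) with hp
  have hp0 : p = 0 := by
    apply Polynomial.funext
    intro t
    have h1 := h ![t, 1]
    rw [eval_eq'] at h1
    rw [hp, Polynomial.eval_finsetSum, Polynomial.eval_zero]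
    refine Eq.trans ?_ h1
    refine Finset.sum_congr rfl fun s _ => ?_
    rw [Fintype.prod_sum_type, Fin.prod_univ_two, Polynomial.eval_mul, Polynomial.eval_C,
      Polynomial.eval_pow, Polynomial.eval_X]
    simp only [Sum.elim_inl, Sum.elim_inr, Matrix.cons_val_zero, Matrix.cons_val_one, one_pow,
      mul_one]
    ring
  have h2 : p.coeff i = 0 := by rw [hp0, Polynomial.coeff_zero]
  rw [hp, Polynomial.finsetSum_coeff] at h2
  simp only [Polynomial.coeff_C_mul_X_pow] at h2
  unfold slice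
  rw [map_sum, Finset.sum_filter]
  refine Eq.trans ?_ h2
  refine Finset.sum_congr rfl fun s _ => ?_
  by_cases h3 : s (Sum.inl 0) = i
  · rw [if_pos h3, if_pos h3.symm, eval_monomial, Finsupp.prod_fintype _ _ (by intro j; simp)]
    simp only [sndPart_apply]
  · rw [if_neg h3, if_neg (fun h => h3 h.symm)]

/-- index set of the matrix: exponents of monomials of degree `D` in the `z_j` -/
abbrev Gam (n D : ℕ) : Type := (Finset.finsuppAntidiag (Finset.univ : Finset (Fin n)) D : Finset _)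

lemma exists_big {e₂ : ℕ} (he : 1 ≤ e₂) (γ : Gam n (n * (e₂ - 1) + 1)) :
    ∃ j : Fin n, e₂ ≤ γ.1 j := by
  by_contra hcon
  push Not at hcon
  have h1 := γ.2
  rw [Finset.mem_finsuppAntidiag] at h1
  have h2 : ∑ j, γ.1 j ≤ ∑ _j : Fin n, (e₂ - 1) :=
    Finset.sum_le_sum fun j _ => by have := hcon j; omega
  rw [h1.1, Finset.sum_const, Finset.card_univ, Fintype.card_fin, smul_eq_mul] at h2
  omega

/-- the chosen index -/
noncomputable def pick {e₂ : ℕ} (he : 1 ≤ e₂) (γ : Gam n (n * (e₂ - 1) + 1)) : Fin n :=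
  (exists_big he γ).choose

lemma pick_spec {e₂ : ℕ} (he : 1 ≤ e₂) (γ : Gam n (n * (e₂ - 1) + 1)) :
    e₂ ≤ γ.1 (pick he γ) := (exists_big he γ).choose_spec

/-- `γ - e₂ · e_{j(γ)}` -/
noncomputable def del {e₂ : ℕ} (he : 1 ≤ e₂) (γ : Gam n (n * (e₂ - 1) + 1)) : Fin n →₀ ℕ :=
  γ.1 - Finsupp.single (pick he γ) e₂

lemma del_add {e₂ : ℕ} (he : 1 ≤ e₂) (γ : Gam n (n * (e₂ - 1) + 1)) :
    del he γ + Finsupp.single (pick he γ) e₂ = γ.1 := by
  unfold del
  apply tsub_add_cancel_of_le
  rw [Finsupp.single_le_iff]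
  exact pick_spec he γ

/-- the Macaulay-type matrix -/
noncomputable def mat (n e₁ e₂ : ℕ) (he : 1 ≤ e₂) :
    Matrix (Gam n (n * (e₂ - 1) + 1)) (Gam n (n * (e₂ - 1) + 1))
      (MvPolynomial ((Fin 2 ⊕ Fin n) →₀ ℕ) ℂ) :=
  open Classical in
  Matrix.of fun γ' γ => if del he γ ≤ γ'.1 then
    X (Finsupp.sumElim (xpart e₁ (pick he γ : ℕ)) (γ'.1 - del he γ)) else 0

/-- its value at `F` -/
noncomputable def matVal (n e₁ e₂ : ℕ) (he : 1 ≤ e₂) (F : CoxRing n) :
    Matrix (Gam n (n * (e₂ - 1) + 1)) (Gam n (n * (e₂ - 1) + 1)) ℂ :=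
  open Classical in
  Matrix.of fun γ' γ => if del he γ ≤ γ'.1 then
    coeff (Finsupp.sumElim (xpart e₁ (pick he γ : ℕ)) (γ'.1 - del he γ)) F else 0

lemma eval_det_mat (e₁ e₂ : ℕ) (he : 1 ≤ e₂) (F : CoxRing n) :
    eval (fun s => coeff s F) (mat n e₁ e₂ he).det = (matVal n e₁ e₂ he F).det := by
  rw [RingHom.map_det]
  congr 1
  ext γ' γ
  simp only [mat, matVal, RingHom.mapMatrix_apply, Matrix.map_apply, Matrix.of_apply]
  split_ifs
  · rw [eval_X]
  · rw [map_zero]

lemma det_mat_isHomogeneous (e₁ e₂ : ℕ) (he : 1 ≤ e₂) :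
    (mat n e₁ e₂ he).det.IsHomogeneous (Fintype.card (Gam n (n * (e₂ - 1) + 1))) := by
  classical
  rw [Matrix.det_apply]
  apply IsHomogeneous.sum
  intro σ _
  have h1 : (∏ i, mat n e₁ e₂ he (σ i) i).IsHomogeneous
      (Fintype.card (Gam n (n * (e₂ - 1) + 1))) := by
    have := IsHomogeneous.prod (Finset.univ : Finset (Gam n (n * (e₂ - 1) + 1)))
      (fun i => mat n e₁ e₂ he (σ i) i) (fun _ => 1) (fun i _ => by
        simp only [mat, Matrix.of_apply]
        split_ifs
        · exact isHomogeneous_X _ _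
        · exact isHomogeneous_zero _ _ _)
    simpa using this
  rcases Int.units_eq_one_or (Equiv.Perm.sign σ) with h | h
  · rw [h, one_smul]; exact h1
  · rw [h, Units.neg_smul, one_smul]; exact h1.neg

/-- If the determinant is nonzero at `F` then the fibre `ℙ¹ × {z}` is never contained in `F = 0`. -/
lemma good_of_det_ne_zero {e₁ e₂ : ℕ} (he : 1 ≤ e₂) {F : CoxRing n} (hF : F ∈ biforms n e₁ e₂)
    (hdet : (matVal n e₁ e₂ he F).det ≠ 0) :
    ∀ z : Fin n → ℂ, z ≠ 0 → ∃ x : Fin 2 → ℂ, eval (Sum.elim x z) F ≠ 0 := by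
  classical
  intro z hz
  by_contra hcon
  push Not at hcon
  have hsl := eval_slice_eq_zero hF z hcon
  have hvec : Matrix.vecMul (fun γ : Gam n (n * (e₂ - 1) + 1) => ∏ j, z j ^ γ.1 j)
      (matVal n e₁ e₂ he F) = 0 := by
    funext γ
    simp only [Matrix.vecMul, dotProduct, Pi.zero_apply]
    set H : MvPolynomial (Fin n) ℂ := slice F (pick he γ : ℕ) * monomial (del he γ) 1 with hH
    have hHhom : H.IsHomogeneous (n * (e₂ - 1) + 1) := by
      have h1 : (monomial (del he γ) (1 : ℂ)).IsHomogeneous (del he γ).degree :=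
        isHomogeneous_monomial _ rfl
      have h2 := (slice_isHomogeneous hF (pick he γ : ℕ)).mul h1
      have h3 : e₂ + (del he γ).degree = n * (e₂ - 1) + 1 := by
        have h4 := γ.2
        rw [Finset.mem_finsuppAntidiag] at h4
        have h5 : (γ.1).degree = n * (e₂ - 1) + 1 := by
          rw [Finsupp.degree_eq_sum]; exact h4.1
        rw [← h5, ← del_add he γ, map_add, Finsupp.degree_single, add_comm]
      rwa [h3] at h2
    have hHeval : eval z H = 0 := by
      rw [hH, map_mul, hsl, zero_mul]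
    have hHsum : eval z H = ∑ γ' ∈ Finset.finsuppAntidiag (Finset.univ : Finset (Fin n))
        (n * (e₂ - 1) + 1), coeff γ' H * ∏ j, z j ^ γ' j := by
      rw [eval_eq']
      apply Finset.sum_subset
      · intro γ' hγ'
        rw [Finset.mem_finsuppAntidiag]
        refine ⟨?_, Finset.subset_univ _⟩
        have := hHhom (mem_support_iff.mp hγ')
        rw [← this, Finsupp.weight_apply, Finsupp.sum_fintype _ _ (by intro i; simp)]
        simp
      · intro γ' _ hγ'
        rw [notMem_support_iff] at hγ'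
        rw [hγ', zero_mul]
    have hterm : ∀ γ' : Gam n (n * (e₂ - 1) + 1),
        (∏ j, z j ^ γ'.1 j) * matVal n e₁ e₂ he F γ' γ = coeff γ'.1 H * ∏ j, z j ^ γ'.1 j := by
      intro γ'
      rw [mul_comm, hH, coeff_mul_monomial', mul_one, matVal, Matrix.of_apply, coeff_slice hF]
    rw [Finset.sum_congr rfl (fun γ' _ => hterm γ')]
    rw [Finset.sum_coe_sort (Finset.finsuppAntidiag Finset.univ (n * (e₂ - 1) + 1))
      (fun γ' => coeff γ' H * ∏ j, z j ^ γ' j), ← hHsum, hHeval]
  have hzero := Matrix.eq_zero_of_vecMul_eq_zero hdet hvec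
  obtain ⟨j0, hj0⟩ : ∃ j, z j ≠ 0 := by
    by_contra h
    push Not at h
    exact hz (funext h)
  have hmem : Finsupp.single j0 (n * (e₂ - 1) + 1) ∈
      Finset.finsuppAntidiag (Finset.univ : Finset (Fin n)) (n * (e₂ - 1) + 1) := by
    rw [Finset.mem_finsuppAntidiag]
    refine ⟨?_, Finset.subset_univ _⟩
    have := Finsupp.degree_single j0 (n * (e₂ - 1) + 1)
    rwa [Finsupp.degree_eq_sum] at this
  have h1 := congrFun hzero ⟨_, hmem⟩
  simp only [Pi.zero_apply] at h1
  rw [Finset.prod_eq_zero_iff] at h1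
  obtain ⟨j, -, hj⟩ := h1
  by_cases hjj : j = j0
  · subst hjj
    rw [Finsupp.single_eq_same] at hj
    exact hj0 (pow_eq_zero_iff (by omega) |>.mp hj)
  · rw [Finsupp.single_apply, if_neg (fun h => hjj h.symm), pow_zero] at hj
    exact one_ne_zero hj

/-- The Fermat-type form `∑_j x₀^j x₁^{e₁-j} z_j^{e₂}`. -/
noncomputable def fermat (n e₁ e₂ : ℕ) : CoxRing n :=
  ∑ j : Fin n, monomial (Finsupp.sumElim (xpart e₁ (j : ℕ)) (Finsupp.single j e₂)) 1

lemma fermat_mem {e₁ e₂ : ℕ} (hn : n ≤ e₁ + 1) : fermat n e₁ e₂ ∈ biforms n e₁ e₂ := by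
  unfold fermat
  refine Submodule.sum_mem _ fun j _ => ?_
  apply monomial_mem_biforms
  · rw [Fin.sum_univ_two, Finsupp.sumElim_inl, Finsupp.sumElim_inl, xpart_zero, xpart_one]
    omega
  · simp [Finsupp.single_apply]

lemma matVal_fermat {e₁ e₂ : ℕ} (he : 1 ≤ e₂) : matVal n e₁ e₂ he (fermat n e₁ e₂) = 1 := by
  classical
  ext γ' γ
  have hcoeff : ∀ (i : Fin n) (ζ : Fin n →₀ ℕ),
      coeff (Finsupp.sumElim (xpart e₁ (i : ℕ)) ζ) (fermat n e₁ e₂) =
        if ζ = Finsupp.single i e₂ then 1 else 0 := by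
    intro i ζ
    unfold fermat
    rw [coeff_sum]
    simp only [coeff_monomial]
    rw [Finset.sum_eq_single i]
    · congr 1
      apply propext
      constructor
      · intro h
        ext j
        have := DFunLike.congr_fun h (Sum.inr j)
        rw [Finsupp.sumElim_inr, Finsupp.sumElim_inr] at this
        exact this.symm
      · rintro rfl; rfl
    · intro j _ hj
      rw [if_neg]
      intro h
      have := DFunLike.congr_fun h (Sum.inl 0)
      rw [Finsupp.sumElim_inl, Finsupp.sumElim_inl, xpart_zero, xpart_zero] at this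
      exact hj (Fin.ext this)
    · intro h
      exact absurd (Finset.mem_univ i) h
  rw [matVal, Matrix.of_apply, Matrix.one_apply, hcoeff]
  have hd := del_add he γ
  by_cases h : γ' = γ
  · subst h
    have h1 : del he γ' ≤ γ'.1 := by
      conv_rhs => rw [← hd]
      exact le_self_add
    have h2 : γ'.1 - del he γ' = Finsupp.single (pick he γ') e₂ := by
      conv_lhs => rw [← hd]
      exact add_tsub_cancel_left _ _
    rw [if_pos h1, if_pos h2, if_pos rfl]
  · rw [if_neg h]
    split_ifs with h1 h2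
    · exfalso
      apply h
      apply Subtype.ext
      calc γ'.1 = (γ'.1 - del he γ) + del he γ := (tsub_add_cancel_of_le h1).symm
        _ = Finsupp.single (pick he γ) e₂ + del he γ := by rw [h2]
        _ = γ.1 := by rw [add_comm]; exact hd
    · rfl
    · rfl

end Pool.Agent.LibF4858a
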