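import Pool.Agent.LibF4858a.Basic

set_option autoImplicit false

open MvPolynomial Filter
open scoped LinearAlgebra.Projectivization

namespace Pool.Agent.LibF4858a

variable {n : ℕ}

instance instFiniteBiforms (A B : ℕ) : FiniteDimensional ℂ (biforms n A B) := by
  rw [biforms_eq_span]
  exact FiniteDimensional.span_of_finite ℂ (Set.finite_range _)

/-- forms of bidegree `(A, B)` vanishing on `V` -/
def bivanish (V : Set (PP n)) (A B : ℕ) : Submodule ℂ (biforms n A B) where
  carrier := {f | ∀ p ∈ V, valAt p f.1 = 0}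
  add_mem' := by
    intro f g hf hg p hp
    have h1 := hf p hp
    have h2 := hg p hp
    unfold valAt at *
    simp [h1, h2]
  zero_mem' := by
    intro p hp
    unfold valAt
    simp
  smul_mem' := by
    intro c f hf p hp
    have h1 := hf p hp
    unfold valAt at *
    simp [h1]

lemma mem_bivanish {V : Set (PP n)} {A B : ℕ} {f : biforms n A B} :
    f ∈ bivanish V A B ↔ ∀ p ∈ V, valAt p f.1 = 0 := Iff.rfl

/-- bigraded Hilbert function -/
noncomputable def biHilb (V : Set (PP n)) (A B : ℕ) : ℕ :=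
  Module.finrank ℂ (biforms n A B ⧸ bivanish V A B)

lemma valAt_mul (p : PP n) (f g : CoxRing n) : valAt p (f * g) = valAt p f * valAt p g := by
  unfold valAt; rw [map_mul]

lemma valAt_add (p : PP n) (f g : CoxRing n) : valAt p (f + g) = valAt p f + valAt p g := by
  unfold valAt; rw [map_add]

lemma valAt_sub (p : PP n) (f g : CoxRing n) : valAt p (f - g) = valAt p f - valAt p g := by
  unfold valAt; rw [map_sub]

lemma valAt_pow (p : PP n) (f : CoxRing n) (k : ℕ) : valAt p (f ^ k) = valAt p f ^ k := by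
  unfold valAt; rw [map_pow]

lemma valAt_X_inl (p : PP n) (i : Fin 2) : valAt p (X (Sum.inl i)) = p.1.rep i := by
  unfold valAt; rw [eval_X]; rfl

lemma valAt_X_inr (p : PP n) (i : Fin n) : valAt p (X (Sum.inr i)) = p.2.rep i := by
  unfold valAt; rw [eval_X]; rfl

lemma isZariskiClosed_hypersurface {a b : ℕ} {f : CoxRing n} (hf : f ∈ biforms n a b) :
    IsZariskiClosed {p : PP n | valAt p f = 0} :=
  ⟨{f}, by rintro g rfl; exact ⟨a, b, hf⟩, by ext p; simp⟩

lemma IsSubvariety.prime {V : Set (PP n)} {k : ℕ} (hV : IsSubvariety V k) {a b a' b' : ℕ}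
    {f g : CoxRing n} (hf : f ∈ biforms n a b) (hg : g ∈ biforms n a' b')
    (h : ∀ p ∈ V, valAt p f * valAt p g = 0) :
    (∀ p ∈ V, valAt p f = 0) ∨ (∀ p ∈ V, valAt p g = 0) := by
  rcases hV.irreducible _ _ (isZariskiClosed_hypersurface hf) (isZariskiClosed_hypersurface hg)
    (fun p hp => mul_eq_zero.mp (h p hp)) with h1 | h1
  · left; intro p hp; exact h1 hp
  · right; intro p hp; exact h1 hp

/-- The multiplication-by-a-section-of-`O(-1, e₂)` inequality. -/
lemma biHilb_succ_le {V : Set (PP n)} {k : ℕ} (hV : IsSubvariety V k) {l e₂ : ℕ} (hl : 1 ≤ l)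
    {P Q : CoxRing n} (hP : P ∈ biforms n (l - 1) e₂) (hQ : Q ∈ biforms n 0 e₂)
    (hrel : ∀ p ∈ V, p.1.rep 0 * valAt p P + p.1.rep 1 ^ l * valAt p Q = 0)
    (hne : ∃ p ∈ V, valAt p P ≠ 0 ∨ valAt p Q ≠ 0) {A B : ℕ} (hA : l ≤ A + 1) :
    biHilb V (A + 1) B ≤ biHilb V A (B + e₂) := by
  -- the two maps from E = biforms A B × biforms 0 B
  let σ : (biforms n A B × biforms n 0 B) →ₗ[ℂ] biforms n (A + 1) B :=
    { toFun := fun e => ⟨X (Sum.inl 0) * e.1.1 + X (Sum.inl 1) ^ (A + 1) * e.2.1, by
        refine Submodule.add_mem _ ?_ ?_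
        · have := mul_mem_biforms (X_inl_mem (n := n) 0) e.1.2
          rwa [add_comm 1 A, zero_add] at this
        · have := mul_mem_biforms (pow_mem_biforms (X_inl_mem (n := n) 1) (A + 1)) e.2.2
          simpa using this⟩
      map_add' := by
        intro e e'
        apply Subtype.ext
        simp only [Prod.fst_add, Prod.snd_add, Submodule.coe_add]
        ring
      map_smul' := by
        intro c e
        apply Subtype.ext
        simp only [Prod.smul_fst, Prod.smul_snd, Submodule.coe_smul, RingHom.id_apply, smul_add,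
          mul_smul_comm] }
  let τ : (biforms n A B × biforms n 0 B) →ₗ[ℂ] biforms n A (B + e₂) :=
    { toFun := fun e => ⟨P * (X (Sum.inl 1) ^ (A + 1 - l) * e.2.1) - Q * e.1.1, by
        refine Submodule.sub_mem _ ?_ ?_
        · have := mul_mem_biforms hP
            (mul_mem_biforms (pow_mem_biforms (X_inl_mem (n := n) 1) (A + 1 - l)) e.2.2)
          have h1 : l - 1 + ((A + 1 - l) * 1 + 0) = A := by omega
          have h2 : e₂ + ((A + 1 - l) * 0 + B) = B + e₂ := by simp [add_comm]
          rwa [h1, h2] at this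
        · have := mul_mem_biforms hQ e.1.2
          rwa [zero_add, add_comm e₂ B] at this⟩
      map_add' := by
        intro e e'
        apply Subtype.ext
        simp only [Prod.fst_add, Prod.snd_add, Submodule.coe_add]
        ring
      map_smul' := by
        intro c e
        apply Subtype.ext
        simp only [Prod.smul_fst, Prod.smul_snd, Submodule.coe_smul, RingHom.id_apply, smul_sub,
          mul_smul_comm] }
  have hσval : ∀ (e : biforms n A B × biforms n 0 B) (p : PP n), valAt p (σ e).1 =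
      p.1.rep 0 * valAt p e.1.1 + p.1.rep 1 ^ (A + 1) * valAt p e.2.1 := by
    intro e p
    change valAt p (X (Sum.inl 0) * e.1.1 + X (Sum.inl 1) ^ (A + 1) * e.2.1) = _
    rw [valAt_add, valAt_mul, valAt_mul, valAt_pow, valAt_X_inl, valAt_X_inl]
  have hτval : ∀ (e : biforms n A B × biforms n 0 B) (p : PP n), valAt p (τ e).1 =
      valAt p P * (p.1.rep 1 ^ (A + 1 - l) * valAt p e.2.1) - valAt p Q * valAt p e.1.1 := by
    intro e p
    change valAt p (P * (X (Sum.inl 1) ^ (A + 1 - l) * e.2.1) - Q * e.1.1) = _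
    rw [valAt_sub, valAt_mul, valAt_mul, valAt_mul, valAt_pow, valAt_X_inl]
  have hσ : Function.Surjective σ := by
    rintro ⟨g, hg⟩
    obtain ⟨g₀, hg₀, g', hg', rfl⟩ := exists_decomp hg
    exact ⟨(⟨g₀, hg₀⟩, ⟨g', hg'⟩), rfl⟩
  -- the two identities on V
  have id1 : ∀ (e : biforms n A B × biforms n 0 B), ∀ p ∈ V,
      p.1.rep 0 * valAt p (τ e).1 = - (valAt p Q * valAt p (σ e).1) := by
    intro e p hp
    have h1 := hrel p hp
    have h2 : p.1.rep 1 ^ (A + 1) = p.1.rep 1 ^ (A + 1 - l) * p.1.rep 1 ^ l := by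
      rw [← pow_add]; congr 1; omega
    rw [hσval, hτval, h2]
    linear_combination (p.1.rep 1 ^ (A + 1 - l) * valAt p e.2.1) * h1
  have id2 : ∀ (e : biforms n A B × biforms n 0 B), ∀ p ∈ V,
      p.1.rep 1 ^ l * valAt p (τ e).1 = valAt p P * valAt p (σ e).1 := by
    intro e p hp
    have h1 := hrel p hp
    have h2 : p.1.rep 1 ^ (A + 1) = p.1.rep 1 ^ (A + 1 - l) * p.1.rep 1 ^ l := by
      rw [← pow_add]; congr 1; omega
    rw [hσval, hτval, h2]
    linear_combination (- valAt p e.1.1) * h1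
  have hker : (LinearMap.ker ((bivanish V (A + 1) B).mkQ ∘ₗ σ)) =
      LinearMap.ker ((bivanish V A (B + e₂)).mkQ ∘ₗ τ) := by
    ext e
    rw [LinearMap.mem_ker, LinearMap.mem_ker, LinearMap.comp_apply, LinearMap.comp_apply,
      Submodule.mkQ_apply, Submodule.mkQ_apply, Submodule.Quotient.mk_eq_zero,
      Submodule.Quotient.mk_eq_zero, mem_bivanish, mem_bivanish]
    constructor
    · intro h p hp
      have e1 := id1 e p hp
      have e2 := id2 e p hp
      rw [h p hp, mul_zero, neg_zero] at e1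
      rw [h p hp, mul_zero] at e2
      by_contra hcon
      have h0 : p.1.rep 0 = 0 := (mul_eq_zero.mp e1).resolve_right hcon
      have h1 : p.1.rep 1 = 0 := by
        have := (mul_eq_zero.mp e2).resolve_right hcon
        exact pow_eq_zero_iff (by omega) |>.mp this
      apply p.1.rep_nonzero
      funext i
      fin_cases i
      · exact h0
      · exact h1
    · intro h
      obtain ⟨p₀, hp₀, hne⟩ := hne
      rcases hne with hne | hne
      · rcases hV.prime hP (σ e).2 (fun p hp => by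
          rw [← id2 e p hp, h p hp, mul_zero]) with h3 | h3
        · exact absurd (h3 p₀ hp₀) hne
        · exact h3
      · rcases hV.prime hQ (σ e).2 (fun p hp => by
          have := id1 e p hp
          rw [h p hp, mul_zero] at this
          exact (neg_eq_zero.mp this.symm)) with h3 | h3
        · exact absurd (h3 p₀ hp₀) hne
        · exact h3
  have hsurj : Function.Surjective ((bivanish V (A + 1) B).mkQ ∘ₗ σ) := by
    rw [LinearMap.coe_comp]
    exact (Submodule.mkQ_surjective _).comp hσ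
  have e1 := LinearMap.quotKerEquivOfSurjective _ hsurj
  have e2 := Submodule.quotEquivOfEq _ _ hker
  have h1 : biHilb V (A + 1) B = Module.finrank ℂ
      ((biforms n A B × biforms n 0 B) ⧸ LinearMap.ker ((bivanish V A (B + e₂)).mkQ ∘ₗ τ)) :=
    (e1.symm.trans e2).finrank_eq
  rw [h1]
  have e3 := ((bivanish V A (B + e₂)).mkQ ∘ₗ τ).quotKerEquivRange
  rw [e3.finrank_eq]
  exact Submodule.finrank_le _

/-- a form of bidegree `(0, b)` does not depend on `x` -/
lemma eval_biform_zero {b : ℕ} {f : CoxRing n} (hf : f ∈ biforms n 0 b) (x x' : Fin 2 → ℂ)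
    (z : Fin n → ℂ) : eval (Sum.elim x z) f = eval (Sum.elim x' z) f := by
  rw [mem_biforms_iff] at hf
  rw [eval_eq', eval_eq']
  refine Finset.sum_congr rfl fun d hd => ?_
  obtain ⟨h1, h2⟩ := hf d (mem_support_iff.mp hd)
  have h0 : ∀ i : Fin 2, d (Sum.inl i) = 0 := fun i =>
    (Finset.sum_eq_zero_iff.mp h1) i (Finset.mem_univ i)
  rw [Fintype.prod_sum_type, Fintype.prod_sum_type]
  simp [h0]

/-- Existence of the section of `O(-1, e₂)` on `V`. -/
lemma exists_section {V : Set (PP n)} {e₂ : ℕ} : ∀ (e₁ : ℕ) (F : CoxRing n),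
    F ∈ biforms n e₁ e₂ → (∀ p ∈ V, valAt p F = 0) →
    (∃ l, 1 ≤ l ∧ l ≤ e₁ ∧ ∃ P ∈ biforms n (l - 1) e₂, ∃ Q ∈ biforms n 0 e₂,
      (∀ p ∈ V, p.1.rep 0 * valAt p P + p.1.rep 1 ^ l * valAt p Q = 0) ∧
      ∃ p ∈ V, valAt p P ≠ 0 ∨ valAt p Q ≠ 0) ∨
    (∀ p ∈ V, ∀ x : Fin 2 → ℂ, eval (Sum.elim x p.2.rep) F = 0) := by
  intro e₁
  induction e₁ with
  | zero =>
    intro F hF hV
    right
    intro p hp x
    rw [eval_biform_zero hF x p.1.rep]
    exact hV p hp
  | succ e ih =>
    intro F hF hV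
    obtain ⟨F₁, hF₁, f₀, hf₀, rfl⟩ := exists_decomp hF
    by_cases hne : ∃ p ∈ V, valAt p F₁ ≠ 0 ∨ valAt p f₀ ≠ 0
    · left
      refine ⟨e + 1, by omega, le_rfl, F₁, by simpa using hF₁, f₀, hf₀, ?_, hne⟩
      intro p hp
      have := hV p hp
      rwa [valAt_add, valAt_mul, valAt_mul, valAt_pow, valAt_X_inl, valAt_X_inl] at this
    · push Not at hne
      rcases ih F₁ hF₁ (fun p hp => (hne p hp).1) with h | h
      · left
        obtain ⟨l, h1, h2, h3⟩ := h
        exact ⟨l, h1, by omega, h3⟩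
      · right
        intro p hp x
        rw [map_add, map_mul, map_mul, h p hp x, mul_zero, zero_add]
        have : eval (Sum.elim x p.2.rep) f₀ = 0 := by
          rw [eval_biform_zero hf₀ x p.1.rep]
          exact (hne p hp).2
        rw [this, mul_zero]

/-- Iterated inequality. -/
lemma biHilb_iterate_le {V : Set (PP n)} {k : ℕ} (hV : IsSubvariety V k) {e₁ e₂ : ℕ}
    {F : CoxRing n} (hF : F ∈ biforms n e₁ e₂) (hVF : ∀ p ∈ V, valAt p F = 0)
    (hgood : ∀ z : Fin n → ℂ, z ≠ 0 → ∃ x : Fin 2 → ℂ, eval (Sum.elim x z) F ≠ 0)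
    (t A B : ℕ) (hA : e₁ ≤ A + 1) : biHilb V (A + t) B ≤ biHilb V A (B + t * e₂) := by
  rcases exists_section e₁ F hF hVF with h | h
  · obtain ⟨l, hl1, hl2, P, hP, Q, hQ, hrel, hne⟩ := h
    induction t generalizing B with
    | zero => simp
    | succ t ih =>
      have h1 : biHilb V (A + t + 1) B ≤ biHilb V (A + t) (B + e₂) :=
        biHilb_succ_le hV hl1 hP hQ hrel hne (by omega)
      have h2 := ih (B + e₂)
      have h3 : B + e₂ + t * e₂ = B + (t + 1) * e₂ := by ring
      rw [h3] at h2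
      exact h1.trans h2
  · exfalso
    obtain ⟨p, hp⟩ := hV.nonempty
    obtain ⟨x, hx⟩ := hgood p.2.rep p.2.rep_nonzero
    exact hx (h p hp x)

end Pool.Agent.LibF4858a
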