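import Pool.Agent.LibF4858a.Embed

set_option autoImplicit false

open MvPolynomial Filter
open scoped LinearAlgebra.Projectivization

namespace Pool.Agent.LibF4858a

variable {n : ℕ}

/-- extension by zero -/
def ext0 (n k : ℕ) (z : Fin k → ℂ) : Fin n → ℂ :=
  fun j => if h : (j : ℕ) < k then z ⟨j, h⟩ else 0

/-- substitution `z_j = 0` for `j ≥ k` -/
noncomputable def resHom (n k : ℕ) : CoxRing n →ₐ[ℂ] CoxRing k :=
  aeval (Sum.elim (fun i => X (Sum.inl i))
    (fun j : Fin n => if h : (j : ℕ) < k then X (Sum.inr (⟨j, h⟩ : Fin k)) else 0))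

lemma eval_resHom (k : ℕ) (x : Fin 2 → ℂ) (z : Fin k → ℂ) (f : CoxRing n) :
    eval (Sum.elim x z) (resHom n k f) = eval (Sum.elim x (ext0 n k z)) f := by
  induction f using MvPolynomial.induction_on with
  | C a => simp [resHom]
  | add p q hp hq => rw [map_add, map_add, map_add, hp, hq]
  | mul_X p i hp =>
    rw [map_mul, map_mul, map_mul, hp, eval_X]
    congr 1
    rcases i with i | j
    · simp [resHom]
    · simp only [resHom, aeval_X, Sum.elim_inr, ext0]
      split_ifs with h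
      · simp
      · simp

lemma ext0_ne_zero {k : ℕ} (hk : k ≤ n) {z : Fin k → ℂ} (hz : z ≠ 0) : ext0 n k z ≠ 0 := by
  intro h
  apply hz
  funext j
  have := congrFun h ⟨j, by omega⟩
  simpa [ext0] using this

/-- The point `([x], [z, 0])`. -/
noncomputable def linPt {k : ℕ} (hk : k ≤ n) (x : Fin 2 → ℂ) (z : Fin k → ℂ) (hx : x ≠ 0)
    (hz : z ≠ 0) : PP n :=
  (Projectivization.mk ℂ x hx, Projectivization.mk ℂ (ext0 n k z) (ext0_ne_zero hk hz))

lemma mk_mem_linSub_iff {k : ℕ} {x : Fin 2 → ℂ} {z : Fin n → ℂ} (hx : x ≠ 0) (hz : z ≠ 0) :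
    ((Projectivization.mk ℂ x hx, Projectivization.mk ℂ z hz) : PP n) ∈ linSub n k ↔
      ∀ j : Fin n, k ≤ (j : ℕ) → z j = 0 := by
  obtain ⟨c, hc⟩ := Projectivization.exists_smul_eq_mk_rep ℂ z hz
  unfold linSub
  simp only [Set.mem_ofPred_eq]
  rw [← hc]
  constructor
  · intro h j hj
    have := h j hj
    rw [Pi.smul_apply, Units.smul_def, smul_eq_mul] at this
    exact (mul_eq_zero.mp this).resolve_left c.ne_zero
  · intro h j hj
    rw [Pi.smul_apply, Units.smul_def, smul_eq_mul, h j hj, mul_zero]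

lemma linPt_mem {k : ℕ} (hk : k ≤ n) (x : Fin 2 → ℂ) (z : Fin k → ℂ) (hx : x ≠ 0)
    (hz : z ≠ 0) : linPt hk x z hx hz ∈ linSub n k := by
  unfold linPt
  rw [mk_mem_linSub_iff]
  intro j hj
  simp [ext0, Nat.not_lt.mpr hj]

lemma eq_ext0 {k : ℕ} (hk : k ≤ n) {z : Fin n → ℂ} (h : ∀ j : Fin n, k ≤ (j : ℕ) → z j = 0) :
    z = ext0 n k (fun j => z ⟨j, by omega⟩) := by
  funext j
  unfold ext0
  split_ifs with hj
  · rfl
  · exact h j (by omega)

lemma exists_ne_zero_of_ne_zero {k : ℕ} (hk : 1 ≤ k) {f : CoxRing k} (hf : f ≠ 0) :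
    ∃ (x : Fin 2 → ℂ) (z : Fin k → ℂ), x ≠ 0 ∧ z ≠ 0 ∧ eval (Sum.elim x z) f ≠ 0 := by
  by_contra hcon
  push Not at hcon
  have hX : (X (Sum.inl 0) * X (Sum.inr ⟨0, hk⟩) : CoxRing k) ≠ 0 :=
    mul_ne_zero (X_ne_zero _) (X_ne_zero _)
  have h0 : f * (X (Sum.inl 0) * X (Sum.inr ⟨0, hk⟩)) = 0 := by
    apply MvPolynomial.funext
    intro v
    rw [map_mul, map_mul, eval_X, eval_X, map_zero]
    by_cases h1 : v (Sum.inl 0) = 0
    · rw [h1]; ring
    · by_cases h2 : v (Sum.inr ⟨0, hk⟩) = 0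
      · rw [h2]; ring
      · have := hcon (fun i => v (Sum.inl i)) (fun j => v (Sum.inr j))
          (fun h => h1 (congrFun h 0)) (fun h => h2 (congrFun h ⟨0, hk⟩))
        have hv : Sum.elim (fun i => v (Sum.inl i)) (fun j => v (Sum.inr j)) = v := by
          funext i
          rcases i with i | i <;> rfl
        rw [hv] at this
        rw [this, zero_mul]
  rcases mul_eq_zero.mp h0 with h | h
  · exact hf h
  · exact hX h

/-- A bihomogeneous form vanishes on `linSub` iff its restriction is the zero polynomial. -/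
lemma vanish_linSub_iff {k : ℕ} (hk1 : 1 ≤ k) (hk : k ≤ n) {a b : ℕ} {f : CoxRing n}
    (hf : f ∈ biforms n a b) :
    (∀ p ∈ linSub n k, valAt p f = 0) ↔ resHom n k f = 0 := by
  constructor
  · intro h
    by_contra hne
    obtain ⟨x, z, hx, hz, hxz⟩ := exists_ne_zero_of_ne_zero hk1 hne
    rw [eval_resHom] at hxz
    have := h _ (linPt_mem hk x z hx hz)
    unfold linPt at this
    rw [valAt_mk_eq_zero_iff hf] at this
    exact hxz this
  · intro h p hp
    have h1 : p.2.rep = ext0 n k (fun j => p.2.rep ⟨j, by omega⟩) := eq_ext0 hk hp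
    unfold valAt
    rw [h1, ← eval_resHom, h, map_zero]

lemma mem_coneIdeal {V : Set (PP n)} {f : CoxRing n} : f ∈ coneIdeal V ↔
    ∀ (x : Fin 2 → ℂ) (z : Fin n → ℂ), (∃ p ∈ V, IsCoords p.1 x ∧ IsCoords p.2 z) →
      eval (Sum.elim x z) f = 0 := by
  unfold coneIdeal
  simp only [Submodule.mem_iInf, RingHom.mem_ker]

lemma coneIdeal_linSub {k : ℕ} (hk1 : 1 ≤ k) (hk : k ≤ n) :
    coneIdeal (linSub n k) = RingHom.ker (resHom n k).toRingHom := by
  ext f
  rw [RingHom.mem_ker, mem_coneIdeal]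
  constructor
  · intro h
    change resHom n k f = 0
    by_contra hne
    obtain ⟨x, z, hx, hz, hxz⟩ := exists_ne_zero_of_ne_zero hk1 hne
    rw [eval_resHom] at hxz
    refine hxz (h x (ext0 n k z) ⟨linPt hk x z hx hz, linPt_mem hk x z hx hz, ?_, ?_⟩)
    · obtain ⟨c, hc⟩ := Projectivization.exists_smul_eq_mk_rep ℂ x hx
      exact ⟨c, hc.symm⟩
    · obtain ⟨c, hc⟩ := Projectivization.exists_smul_eq_mk_rep ℂ (ext0 n k z)
        (ext0_ne_zero hk hz)
      exact ⟨c, hc.symm⟩
  · intro h x z hp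
    obtain ⟨p, hp, ⟨c, hc⟩, ⟨e, he⟩⟩ := hp
    change resHom n k f = 0 at h
    have he0 : e ≠ 0 := by
      rintro rfl
      rw [zero_smul] at he
      exact p.2.rep_nonzero he
    have hz : ∀ j : Fin n, k ≤ (j : ℕ) → z j = 0 := by
      intro j hj
      have h1 := hp j hj
      rw [he, Pi.smul_apply, smul_eq_mul] at h1
      exact (mul_eq_zero.mp h1).resolve_left he0
    rw [eq_ext0 hk hz, ← eval_resHom, h, map_zero]

lemma resHom_surjective {k : ℕ} (hk : k ≤ n) : Function.Surjective (resHom n k) := by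
  intro g
  refine ⟨rename (Sum.map id (Fin.castLE hk)) g, ?_⟩
  induction g using MvPolynomial.induction_on with
  | C a => simp [resHom]
  | add p q hp hq => rw [map_add, map_add, hp, hq]
  | mul_X p i hp =>
    rw [map_mul, map_mul, hp, rename_X]
    congr 1
    rcases i with i | j
    · simp [resHom]
    · simp [resHom]

lemma isSubvariety_linSub {k : ℕ} (hk1 : 1 ≤ k) (hk : k ≤ n) : IsSubvariety (linSub n k) k where
  closed := by
    refine ⟨{f | ∃ j : Fin n, k ≤ (j : ℕ) ∧ f = X (Sum.inr j)}, ?_, ?_⟩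
    · rintro f ⟨j, -, rfl⟩
      exact ⟨0, 1, X_inr_mem j⟩
    · ext p
      constructor
      · rintro hp f ⟨j, hj, rfl⟩
        rw [valAt_X_inr]
        exact hp j hj
      · intro hp j hj
        have := hp _ ⟨j, hj, rfl⟩
        rwa [valAt_X_inr] at this
  nonempty := ⟨linPt hk (fun _ => 1) (fun _ => 1) (fun h => one_ne_zero (congrFun h 0))
    (fun h => one_ne_zero (congrFun h ⟨0, hk1⟩)), linPt_mem _ _ _ _ _⟩
  irreducible := by
    intro A B hA hB hAB
    by_contra hcon
    push Not at hcon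
    obtain ⟨h1, h2⟩ := hcon
    obtain ⟨T, hT, rfl⟩ := hA
    obtain ⟨S, hS, rfl⟩ := hB
    rw [Set.not_subset] at h1 h2
    obtain ⟨p, hp, hpA⟩ := h1
    obtain ⟨q, hq, hqB⟩ := h2
    simp only [Set.mem_ofPred_eq] at hpA hqB
    push Not at hpA hqB
    obtain ⟨f, hf, hfp⟩ := hpA
    obtain ⟨g, hg, hgq⟩ := hqB
    obtain ⟨a, b, hfab⟩ := hT f hf
    obtain ⟨a', b', hgab⟩ := hS g hg
    have h3 : resHom n k f ≠ 0 := fun h => hfp ((vanish_linSub_iff hk1 hk hfab).mpr h p hp)
    have h4 : resHom n k g ≠ 0 := fun h => hgq ((vanish_linSub_iff hk1 hk hgab).mpr h q hq)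
    obtain ⟨x, z, hx, hz, hxz⟩ := exists_ne_zero_of_ne_zero hk1 (mul_ne_zero h3 h4)
    rw [map_mul, eval_resHom, eval_resHom] at hxz
    have h5 := left_ne_zero_of_mul hxz
    have h6 := right_ne_zero_of_mul hxz
    rcases hAB (linPt_mem hk x z hx hz) with h | h
    · have := h f hf
      unfold linPt at this
      rw [valAt_mk_eq_zero_iff hfab] at this
      exact h5 this
    · have := h g hg
      unfold linPt at this
      rw [valAt_mk_eq_zero_iff hgab] at this
      exact h6 this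
  dim := by
    rw [coneIdeal_linSub hk1 hk]
    rw [ringKrullDim_eq_of_ringEquiv
      (RingHom.quotientKerEquivOfSurjective (f := (resHom n k).toRingHom) (resHom_surjective hk))]
    rw [MvPolynomial.ringKrullDim_of_isNoetherianRing, ringKrullDim_eq_zero_of_field]
    simp [Nat.card_eq_fintype_card, add_comm]

end Pool.Agent.LibF4858a
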