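import Pool.Agent.LibF4858a.General

/-!
# The half space argument
-/

set_option autoImplicit false

open MvPolynomial Filter Topology
open scoped LinearAlgebra.Projectivization

namespace Pool.Agent.LibF4858a

variable {n : ℕ}

/-- image of a subvariety under the Segre-Veronese embedding of `Y` -/
lemma image_sv (A B : ℕ) (hA : 1 ≤ A) (hB : 1 ≤ B) (V : Set (PP n)) :
    (sv n A B hA hB).toFun '' {p : (Set.univ : Set (PP n)) | p.1 ∈ V} = svMap n A B '' V := by
  ext w
  constructor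
  · rintro ⟨p, hp, rfl⟩
    exact ⟨p.1, hp, rfl⟩
  · rintro ⟨p, hp, rfl⟩
    exact ⟨⟨p, Set.mem_univ p⟩, hp, rfl⟩

/-- The image of the same `V` under the restricted embedding. -/
lemma image_restrict {X : Set (PP n)} (φ : Embedding (Set.univ : Set (PP n)))
    {V : Set (PP n)} (hV : V ⊆ X) :
    (φ.restrict (Set.subset_univ X)).toFun '' {p : X | p.1 ∈ V} =
      φ.toFun '' {p : (Set.univ : Set (PP n)) | p.1 ∈ V} := by
  ext w
  constructor
  · rintro ⟨p, hp, rfl⟩
    exact ⟨⟨p.1, Set.mem_univ _⟩, hp, rfl⟩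
  · rintro ⟨p, hp, rfl⟩
    exact ⟨⟨p.1, hV hp⟩, hp, rfl⟩

/-- The push-forward sends the class of `V` on `X` to the class of `V` on `Y`. -/
lemma pushforward_cls {X : Set (PP n)} (k : ℕ) {V : Set (PP n)} (hV : V ⊆ X) :
    pushforward (Set.subset_univ X) (cls X k V) = cls Set.univ k V := by
  funext φ
  change degree k _ = degree k _
  exact congrArg (degree k) (image_restrict φ hV)

/-- The closed half space. -/
def halfSpace (n b e₂ : ℕ) (hb : 1 ≤ b) : Set (Embedding (Set.univ : Set (PP n)) → ℝ) :=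
  {c | c (sv n 2 b (by norm_num) hb) ≤ c (sv n 1 (b + e₂) le_rfl (by omega))}

lemma mem_halfSpace {b e₂ : ℕ} {hb : 1 ≤ b} {c : Embedding (Set.univ : Set (PP n)) → ℝ} :
    c ∈ halfSpace n b e₂ hb ↔
      c (sv n 2 b (by norm_num) hb) ≤ c (sv n 1 (b + e₂) le_rfl (by omega)) := Iff.rfl

lemma zero_mem_halfSpace (b e₂ : ℕ) (hb : 1 ≤ b) : 0 ∈ halfSpace n b e₂ hb := by
  rw [mem_halfSpace]
  simp

lemma add_mem_halfSpace {b e₂ : ℕ} {hb : 1 ≤ b} {c c' : Embedding (Set.univ : Set (PP n)) → ℝ}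
    (h : c ∈ halfSpace n b e₂ hb) (h' : c' ∈ halfSpace n b e₂ hb) :
    c + c' ∈ halfSpace n b e₂ hb := by
  rw [mem_halfSpace] at *
  simpa using add_le_add h h'

lemma smul_mem_halfSpace {b e₂ : ℕ} {hb : 1 ≤ b} {c : Embedding (Set.univ : Set (PP n)) → ℝ}
    (r : ℝ) (hr : 0 ≤ r) (h : c ∈ halfSpace n b e₂ hb) : r • c ∈ halfSpace n b e₂ hb := by
  rw [mem_halfSpace] at *
  simpa using mul_le_mul_of_nonneg_left h hr

lemma isClosed_halfSpace (b e₂ : ℕ) (hb : 1 ≤ b) : IsClosed (halfSpace n b e₂ hb) :=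
  isClosed_le (continuous_apply _) (continuous_apply _)

lemma closedCone_subset_halfSpace {b e₂ : ℕ} (hb : 1 ≤ b)
    {S : Set (Embedding (Set.univ : Set (PP n)) → ℝ)} (hS : S ⊆ halfSpace n b e₂ hb) :
    closedCone S ⊆ halfSpace n b e₂ hb := by
  refine closure_minimal ?_ (isClosed_halfSpace _ _ _)
  intro c hc
  refine Submodule.span_induction (p := fun c _ => c ∈ halfSpace n b e₂ hb) ?_ ?_ ?_ ?_ hc
  · intro c hc
    exact hS hc
  · exact zero_mem_halfSpace _ _ _
  · intro c c' _ _ h h'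
    exact add_mem_halfSpace h h'
  · intro r c _ h
    exact smul_mem_halfSpace r.1 r.2 h

lemma closedCone_subset_preimage {b e₂ : ℕ} (hb : 1 ≤ b) {X : Set (PP n)}
    {S : Set (Embedding X → ℝ)}
    (hS : S ⊆ pushforward (Set.subset_univ X) ⁻¹' halfSpace n b e₂ hb) :
    closedCone S ⊆ pushforward (Set.subset_univ X) ⁻¹' halfSpace n b e₂ hb := by
  refine closure_minimal ?_ (isClosed_le (continuous_apply _) (continuous_apply _))
  intro c hc
  refine Submodule.span_induction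
    (p := fun c _ => pushforward (Set.subset_univ X) c ∈ halfSpace n b e₂ hb) ?_ ?_ ?_ ?_ hc
  · intro c hc
    exact hS hc
  · exact zero_mem_halfSpace _ _ _
  · intro c c' _ _ h h'
    exact add_mem_halfSpace h h'
  · intro r c _ h
    exact smul_mem_halfSpace r.1 r.2 h

lemma subset_closedCone {Z : Set (PP n)} (S : Set (Embedding Z → ℝ)) : S ⊆ closedCone S :=
  fun _ hc => subset_closure (Submodule.subset_span hc)

/-- The class of the linear subvariety violates the half space inequality. -/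
lemma cls_linSub_notMem {k b e₂ : ℕ} (hb : 1 ≤ b) (hk1 : 1 ≤ k) (hk : k ≤ n)
    (hlt : (k : ℝ) * (1 : ℕ) * ((b + e₂ : ℕ) : ℝ) ^ (k - 1) < k * (2 : ℕ) * (b : ℝ) ^ (k - 1)) :
    cls Set.univ k (linSub n k) ∉ halfSpace n b e₂ hb := by
  intro h
  have h1 : degree k (svMap n 2 b '' linSub n k) ≤
      degree k (svMap n 1 (b + e₂) '' linSub n k) := by
    have h2 := h
    change degree k ((sv n 2 b _ hb).toFun '' _) ≤
      degree k ((sv n 1 (b + e₂) _ _).toFun '' _) at h2
    rwa [image_sv, image_sv] at h2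
  rw [degree_svMap_linSub hk1 hk, degree_svMap_linSub hk1 hk] at h1
  exact absurd hlt (not_lt.mpr h1)

/-- Classes of subvarieties of `X_F` satisfy the half space inequality. -/
lemma classesIn_subset {k b e₁ e₂ : ℕ} (hb : 1 ≤ b) {F : CoxRing n} (hF : F ∈ biforms n e₁ e₂)
    (hgood : ∀ z : Fin n → ℂ, z ≠ 0 → ∃ x : Fin 2 → ℂ, eval (Sum.elim x z) F ≠ 0) :
    classesIn k Set.univ (hypersurface F) ⊆ halfSpace n b e₂ hb := by
  rintro c ⟨V, hV, hVF, rfl⟩
  change degree k ((sv n 2 b _ hb).toFun '' _) ≤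
    degree k ((sv n 1 (b + e₂) _ _).toFun '' _)
  rw [image_sv, image_sv]
  exact degree_le hV hF (fun p hp => hVF hp) hgood hb

/-- Main result for a single `F` whose zero locus contains no fibre `ℙ¹ × {z}`. -/
theorem main_of_good {e₁ e₂ : ℕ} {F : CoxRing n} (hF : F ∈ biforms n e₁ e₂)
    (hgood : ∀ z : Fin n → ℂ, z ≠ 0 → ∃ x : Fin 2 → ℂ, eval (Sum.elim x z) F ≠ 0)
    {k : ℕ} (hk1 : 1 ≤ k) (hk : k ≤ n) :
    cls Set.univ k (linSub n k) ∈ effCone k (Set.univ : Set (PP n)) ∧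
    cls Set.univ k (linSub n k) ∉ closedCone (classesIn k Set.univ (hypersurface F)) ∧
    ¬ InducesIsoOfEffectiveCones k (Set.subset_univ (hypersurface F)) := by
  have hk0 : k ≠ 0 := by omega
  obtain ⟨b, hb⟩ := exists_b k e₂
  rcases hb with ⟨hb1, hb2⟩ | hb
  swap
  · exact absurd hb hk0
  have hlin := cls_linSub_notMem (n := n) hb1 hk1 hk hb2
  have hmem : cls Set.univ k (linSub n k) ∈ effCone k (Set.univ : Set (PP n)) :=
    subset_closedCone _ ⟨linSub n k, isSubvariety_linSub hk1 hk, Set.subset_univ _, rfl⟩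
  have hgen := classesIn_subset (k := k) hb1 hF hgood
  refine ⟨hmem, fun h => hlin (closedCone_subset_halfSpace hb1 hgen h), ?_⟩
  rintro ⟨-, himg⟩
  rw [← himg] at hmem
  obtain ⟨c, hc, hcc⟩ := hmem
  apply hlin
  rw [← hcc]
  have hS : classesIn k (hypersurface F) (hypersurface F) ⊆
      pushforward (Set.subset_univ (hypersurface F)) ⁻¹' halfSpace n b e₂ hb1 := by
    rintro c ⟨V, hV, hVF, rfl⟩
    rw [Set.mem_preimage, pushforward_cls k hVF]
    exact hgen ⟨V, hV, hVF, rfl⟩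
  exact closedCone_subset_preimage hb1 hS hc

end Pool.Agent.LibF4858a
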